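import Pool.Agent.Lib.MP_08e893_gt.Core

/-!
From the core to a colouring of pairs with prescribed patterns.
-/

set_option autoImplicit false
set_option linter.unusedSectionVars false

namespace Pool.Agent.Lib.MP_08e893_gt

open Set Cardinal

section ulam

variable {A B : Type} [LinearOrder A] [WellFoundedLT A] [LinearOrder B] [WellFoundedLT B]

theorem pigeon {A β α : Type} (hA : ℵ₀ ≤ #A) (f : β → α) (hα : #α ≤ #A) (hβ : #A < #β) :
    ∃ a, #A < #(f ⁻¹' {a}) := by
  obtain ⟨j⟩ := Cardinal.le_def _ _ |>.mp hα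
  obtain ⟨a, ha⟩ := infinite_pigeonhole_card_lt (fun x => j (f x)) hβ (hA.trans hβ.le)
  have hne : ((fun x => j (f x)) ⁻¹' {a}).Nonempty := by
    by_contra h
    rw [Set.not_nonempty_iff_eq_empty] at h
    rw [h] at ha
    simp at ha
  obtain ⟨x, hx⟩ := hne
  refine ⟨f x, lt_of_lt_of_le ha (Cardinal.mk_le_mk_of_subset ?_)⟩
  intro y hy
  simp only [Set.mem_preimage, Set.mem_singleton_iff] at hx hy ⊢
  exact j.injective (by rw [hy, hx])

/-- Ulam's argument. -/
theorem Setup.ulam (S : Setup A B) (hinf : ℵ₀ ≤ #A) (hAB : #A < #B) (Code : Type) [Nonempty Code]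
    (hC : #Code ≤ #A) : ∃ h : B → Code, ∀ c, Stat {δ : B | Good δ ∧ h δ = c} := by
  classical
  choose f hf using S.sizeB
  have neA := S.neA
  have neB := S.neB
  choose! idx hidx using hf
  have h1 : ∀ α : B, ∃ ζ : A, Stat {δ : B | Good δ ∧ α < δ ∧ idx δ α = ζ} := by
    intro α
    by_contra hcon
    push Not at hcon
    unfold Stat at hcon
    push Not at hcon
    choose b γ hb using hcon
    have hbb : ∀ x, ∃ y, ∀ ζ, b ζ x < y := fun x => S.cofB (fun ζ => b ζ x)
    choose b' hb' using hbb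
    obtain ⟨γ', hγ'⟩ := S.cofB γ
    obtain ⟨δ, hδ1, hδ2, hδ3⟩ := S.stat_good (B := B) b' (max γ' α)
    obtain ⟨x, hx1, hx2⟩ := hb (idx δ α) δ ⟨hδ1, lt_of_le_of_lt (le_max_right _ _) hδ2, rfl⟩
      (lt_trans (hγ' _) (lt_of_le_of_lt (le_max_left _ _) hδ2))
    exact absurd (lt_trans (hb' x _) (hδ3 x hx1)) (not_lt.mpr hx2)
  choose z hz using h1
  obtain ⟨ζ, hζ⟩ := infinite_pigeonhole_card_lt z hAB (hinf.trans hAB.le)
  obtain ⟨i⟩ := Cardinal.le_def _ _ |>.mp (hC.trans hζ.le)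
  refine ⟨fun δ => if hh : ∃ c, (i c : B) < δ ∧ idx δ (i c : B) = ζ then hh.choose
    else Classical.arbitrary Code, ?_⟩
  intro c b γ
  have hzc : z (i c : B) = ζ := (i c).2
  obtain ⟨δ, ⟨h2, h3, h4⟩, h5, h6⟩ := hz (i c : B) b γ
  rw [hzc] at h4
  refine ⟨δ, ⟨h2, ?_⟩, h5, h6⟩
  have hh : ∃ c, (i c : B) < δ ∧ idx δ (i c : B) = ζ := ⟨c, h3, h4⟩
  beta_reduce
  rw [dif_pos hh]
  have h7 := hh.choose_spec
  have h8 : idx δ (i hh.choose : B) = idx δ (i c : B) := by rw [h7.2, h4]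
  have h9 : (i hh.choose : B) = (i c : B) := by
    rw [← hidx δ _ h7.1, ← hidx δ _ h3, h8]
  exact i.injective (Subtype.ext h9)

end ulam

section comb

variable {A B : Type} [LinearOrder A] [WellFoundedLT A] [LinearOrder B] [WellFoundedLT B]

theorem root_lemma {ι : Type} (hι : #A < #ι) (m : ℕ) (a : ι → Fin m → B) :
    ∃ r, r ≤ m ∧ ∃ J : Set ι, #A < #J ∧ (∀ i ∈ J, ∀ j ∈ J, ∀ k : Fin m, k.1 < r → a i k = a j k) ∧
      ∀ hr : r < m, ∀ x : B, #{i | i ∈ J ∧ a i ⟨r, hr⟩ = x} ≤ #A := by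
  classical
  let Q : ℕ → Prop := fun r => ∃ J : Set ι, #A < #J ∧
    (∀ i ∈ J, ∀ j ∈ J, ∀ k : Fin m, k.1 < r → a i k = a j k)
  have h0 : Q 0 := ⟨Set.univ, by simpa using hι, fun i _ j _ k hk => absurd hk (Nat.not_lt_zero _)⟩
  let r := Nat.findGreatest Q m
  have hr : Q r := Nat.findGreatest_spec (m := 0) (Nat.zero_le _) h0
  have hrm : r ≤ m := Nat.findGreatest_le _
  obtain ⟨J, hJ1, hJ2⟩ := hr
  refine ⟨r, hrm, J, hJ1, hJ2, ?_⟩
  intro hr' x
  by_contra hcon
  push Not at hcon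
  have hQ : Q (r + 1) := by
    refine ⟨{i | i ∈ J ∧ a i ⟨r, hr'⟩ = x}, hcon, ?_⟩
    intro i hi j hj k hk
    rcases Nat.lt_succ_iff_lt_or_eq.mp hk with h | h
    · exact hJ2 i hi.1 j hj.1 k h
    · have : k = ⟨r, hr'⟩ := Fin.ext h
      rw [this, hi.2, hj.2]
  have := Nat.le_findGreatest (P := Q) (Nat.succ_le_of_lt hr') hQ
  exact absurd this (Nat.not_succ_le_self _)

/-- The strong colouring theorem with prescribed patterns. -/
theorem comb (S : Setup A B) (hinf : ℵ₀ ≤ #A) (hAB : #A < #B)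
    (hunb : ∀ U : Set B, (∀ x, ∃ u ∈ U, x < u) → #A < #U)
    (hIic : ∀ x : B, #(Set.Iic x) ≤ #A)
    (T : Type) [Nonempty T] (hT : #T ≤ #A) :
    ∃ col : B → B → T, ∀ (ι : Type) (_ : #A < #ι) (m : ℕ) (a : ι → Fin m → B)
      (_ : ∀ i, StrictMono (a i)),
      ∃ r, r ≤ m ∧ ∀ H : Fin m → Fin m → T, ∃ i j, i ≠ j ∧
        (∀ k : Fin m, k.1 < r → a i k = a j k) ∧
        (∀ l k : Fin m, r ≤ l.1 → r ≤ k.1 → a i l < a j k ∧ col (a i l) (a j k) = H l k) := by
  classical
  have neA := S.neA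
  have neB := S.neB
  have infA : Infinite A := Cardinal.infinite_iff.mpr hinf
  obtain ⟨L, hL⟩ := S.exists_enum
  obtain ⟨s, hs⟩ := S.exists_evdiff
  obtain ⟨E, hE⟩ := S.exists_countEnum
  have hAA : #(A × A × T) ≤ #A := by
    simp only [Cardinal.mk_prod, Cardinal.lift_id]
    calc #A * (#A * #T) ≤ #A * (#A * #A) := by gcongr
      _ = #A := by rw [Cardinal.mul_eq_self hinf, Cardinal.mul_eq_self hinf]
  have infAAT : Infinite (A × A × T) := inferInstance
  have hfin : #(Finset (A × A × T)) ≤ #A := by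
    rw [Cardinal.mk_finset_of_infinite]; exact hAA
  have hCode : #(A × Finset (A × A × T)) ≤ #A := by
    rw [Cardinal.mk_prod, Cardinal.lift_id, Cardinal.lift_id]
    calc #A * #(Finset (A × A × T)) ≤ #A * #A := by gcongr
      _ = #A := Cardinal.mul_eq_self hinf
  obtain ⟨h, hh⟩ := S.ulam hinf hAB (A × Finset (A × A × T)) hCode
  let loc : B → B → B := fun α β => if hd : ∃ d, IsLoc s E (tr L hL α β) d then hd.choose else α
  let col : B → B → T := fun α β =>
    if ht : ∃ t, (s α (h (loc α β)).1, s β (h (loc α β)).1, t) ∈ (h (loc α β)).2 then ht.choose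
    else Classical.arbitrary T
  have hpig : ∀ U : Set B, (∀ x, ∃ u ∈ U, x < u) → ∀ f : B → Finset A × ℕ,
      ∃ p, {u | u ∈ U ∧ f u = p}.Infinite := by
    intro U hU f
    have h1 : #(Finset A × ℕ) ≤ #A := by
      rw [Cardinal.mk_prod, Cardinal.lift_id, Cardinal.lift_id, Cardinal.mk_finset_of_infinite]
      calc #A * #ℕ ≤ #A * #A := by gcongr; simp
        _ = #A := Cardinal.mul_eq_self hinf
    obtain ⟨p, hp⟩ := pigeon hinf (fun u : U => f u) h1 (hunb U hU)
    refine ⟨p, ?_⟩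
    have h2 : (((fun u : U => f u) ⁻¹' {p}) : Set U).Infinite := by
      rw [← Set.infinite_coe_iff, Cardinal.infinite_iff]
      exact hinf.trans hp.le
    have h3 := h2.image (f := fun u : U => (u : B)) Subtype.val_injective.injOn
    apply h3.mono
    rintro _ ⟨u, hu, rfl⟩
    exact ⟨u.2, hu⟩
  refine ⟨col, ?_⟩
  intro ι hι m a ha
  obtain ⟨r, hrm, J, hJ, hJc, hJr⟩ := root_lemma (A := A) (B := B) hι m a
  -- types
  have htype : ∀ i : ι, ∃ x : A, Function.Injective (fun k : Fin m => s (a i k) x) := by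
    intro i
    have h1 : ∀ p : Fin m × Fin m, ∃ e : A, p.1 ≠ p.2 → ∀ ζ, e < ζ → s (a i p.1) ζ ≠ s (a i p.2) ζ := by
      intro p
      by_cases hp : p.1 = p.2
      · exact ⟨Classical.arbitrary A, fun h' => absurd hp h'⟩
      · obtain ⟨e, he⟩ := hs (a i p.1) (a i p.2) (fun h' => hp ((ha i).injective h'))
        exact ⟨e, fun _ => he⟩
    choose e he using h1
    obtain ⟨x, hx⟩ := S.cofA (Set.range e) (Set.countable_range _)
    refine ⟨x, ?_⟩
    intro k l hkl
    by_contra hne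
    exact he (k, l) hne x (hx _ ⟨(k, l), rfl⟩) hkl
  choose x hx using htype
  have hty : #(A × (Fin m → A)) ≤ #A := by
    have h2 : #(Fin m → A) ≤ #A := by
      rcases Nat.eq_zero_or_pos m with rfl | hm
      · have : #(Fin 0 → A) = 1 := by simp
        rw [this]
        exact (Cardinal.one_le_aleph0).trans hinf
      · rw [← Cardinal.power_def]
        have : #(Fin m) = (m : Cardinal) := by simp
        rw [this]
        exact Cardinal.power_nat_le hinf
    rw [Cardinal.mk_prod, Cardinal.lift_id, Cardinal.lift_id]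
    calc #A * #(Fin m → A) ≤ #A * #A := by gcongr
      _ = #A := Cardinal.mul_eq_self hinf
  obtain ⟨⟨x0, v⟩, hxv⟩ := pigeon hinf
    (fun i : J => (x i, fun k : Fin m => s (a i k) (x i))) hty hJ
  let J' : Set ι := Subtype.val '' ((fun i : J => (x i, fun k : Fin m => s (a i k) (x i))) ⁻¹' {(x0, v)})
  have hJ'card : #A < #J' := by
    have : #J' = #((fun i : J => (x i, fun k : Fin m => s (a i k) (x i))) ⁻¹' {(x0, v)}) :=
      Cardinal.mk_image_eq Subtype.val_injective
    rw [this]; exact hxv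
  have hJ'J : J' ⊆ J := by
    rintro _ ⟨i, _, rfl⟩; exact i.2
  have hJ'x : ∀ i ∈ J', x i = x0 ∧ ∀ k, s (a i k) x0 = v k := by
    rintro _ ⟨i, hi, rfl⟩
    have h1 : (x i, fun k : Fin m => s (a i k) (x i)) = (x0, v) := hi
    have h2 : x i = x0 := congrArg Prod.fst h1
    have h3 : (fun k : Fin m => s (a i k) (x i)) = v := congrArg Prod.snd h1
    refine ⟨h2, fun k => ?_⟩
    rw [← h3, ← h2]
  have hne' : J'.Nonempty := by
    by_contra hcon
    rw [Set.not_nonempty_iff_eq_empty] at hcon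
    rw [hcon] at hJ'card
    simp at hJ'card
  have hvinj : Function.Injective v := by
    obtain ⟨i, hi⟩ := hne'
    have h1 := hx i
    rw [(hJ'x i hi).1] at h1
    intro k l hkl
    apply h1
    simp only
    rw [(hJ'x i hi).2 k, (hJ'x i hi).2 l, hkl]
  refine ⟨r, hrm, ?_⟩
  intro H
  rcases Nat.lt_or_ge r m with hr | hr
  swap
  · -- everything is in the root
    have h1 : J'.Nontrivial := by
      rw [← Set.nontrivial_coe_sort, ← Cardinal.one_lt_iff_nontrivial]
      exact lt_of_le_of_lt ((Cardinal.one_le_aleph0).trans hinf) hJ'card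
    obtain ⟨i, hi, j, hj, hij⟩ := h1
    refine ⟨i, j, hij, fun k hk => hJc i (hJ'J hi) j (hJ'J hj) k hk, ?_⟩
    intro l k hl _
    exact absurd l.2 (not_lt.mpr (hr.trans hl))
  · -- nontrivial tails
    have hunbJ : ∀ γ : B, ∃ i ∈ J', γ < a i ⟨r, hr⟩ := by
      intro γ
      by_contra hcon
      push Not at hcon
      obtain ⟨y, hy⟩ := pigeon hinf
        (fun i : J' => (⟨a i ⟨r, hr⟩, hcon i i.2⟩ : Set.Iic γ)) (hIic γ) hJ'card
      have h1 := hJr hr (y : B)
      apply absurd hy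
      rw [not_lt]
      refine le_trans ?_ h1
      refine Cardinal.mk_le_of_injective (f := fun q => ⟨(q.1 : ι), hJ'J q.1.2, ?_⟩) ?_
      · have := q.2
        simp only [Set.mem_preimage, Set.mem_singleton_iff] at this
        exact congrArg Subtype.val this
      · intro q q' hq
        simp only [Subtype.mk.injEq] at hq
        exact Subtype.ext (Subtype.ext hq)
    let tail : ι → Finset B := fun i => (Finset.univ.filter (fun k : Fin m => r ≤ k.1)).image (a i)
    let 𝒜 : Set (Finset B) := tail '' J'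
    have h𝒜 : ∀ γ, ∃ t ∈ 𝒜, ∀ y ∈ t, γ < y := by
      intro γ
      obtain ⟨i, hi, hγ⟩ := hunbJ γ
      refine ⟨tail i, ⟨i, hi, rfl⟩, ?_⟩
      intro y hy
      simp only [tail, Finset.mem_image, Finset.mem_filter, Finset.mem_univ, true_and] at hy
      obtain ⟨k, hk, rfl⟩ := hy
      exact lt_of_lt_of_le hγ ((ha i).monotone (show (⟨r, hr⟩ : Fin m) ≤ k from hk))
    let G : Finset (A × A × T) := (Finset.univ : Finset (Fin m × Fin m)).image
      (fun p => (v p.1, v p.2, H p.1 p.2))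
    obtain ⟨ta, ⟨i, hi, rfl⟩, tb, ⟨j, hj, rfl⟩, δ, ⟨hδg, hδh⟩, hloc⟩ :=
      core S hL s hs E hE hpig 𝒜 h𝒜 {δ : B | Good δ ∧ h δ = (x0, G)}
        (fun δ hδ => hδ.1) (hh (x0, G))
    have hmem : ∀ (i : ι) (k : Fin m), r ≤ k.1 → a i k ∈ tail i := by
      intro i k hk
      simp only [tail, Finset.mem_image, Finset.mem_filter, Finset.mem_univ, true_and]
      exact ⟨k, hk, rfl⟩
    have hmain : ∀ l k : Fin m, r ≤ l.1 → r ≤ k.1 →
        a i l < a j k ∧ col (a i l) (a j k) = H l k := by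
      intro l k hl hk
      obtain ⟨h1, h2, h3⟩ := hloc (a i l) (hmem i l hl) (a j k) (hmem j k hk)
      refine ⟨lt_trans h1 h2, ?_⟩
      have h4 : loc (a i l) (a j k) = δ := by
        have hex : ∃ d, IsLoc s E (tr L hL (a i l) (a j k)) d := ⟨δ, h3⟩
        simp only [loc]
        rw [dif_pos hex]
        exact IsLoc.unique s E hex.choose_spec h3
      have h5 : ∀ t, (s (a i l) (h (loc (a i l) (a j k))).1,
          s (a j k) (h (loc (a i l) (a j k))).1, t) ∈ (h (loc (a i l) (a j k))).2 ↔ t = H l k := by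
        intro t
        rw [h4, hδh]
        simp only [G, Finset.mem_image, Finset.mem_univ, true_and, Prod.mk.injEq, Prod.exists]
        rw [(hJ'x i hi).2 l, (hJ'x j hj).2 k]
        constructor
        · rintro ⟨p, q, h6, h7, h8⟩
          rw [← h8, hvinj h6, hvinj h7]
        · intro h6
          exact ⟨l, k, rfl, rfl, h6.symm⟩
      have hex : ∃ t, (s (a i l) (h (loc (a i l) (a j k))).1,
          s (a j k) (h (loc (a i l) (a j k))).1, t) ∈ (h (loc (a i l) (a j k))).2 :=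
        ⟨H l k, (h5 _).mpr rfl⟩
      have h6 : col (a i l) (a j k) = hex.choose := by
        simp only [col]
        rw [dif_pos hex]
      rw [h6]
      exact (h5 _).mp hex.choose_spec
    refine ⟨i, j, ?_, fun k hk => hJc i (hJ'J hi) j (hJ'J hj) k hk, hmain⟩
    rintro rfl
    exact lt_irrefl _ (hmain ⟨r, hr⟩ ⟨r, hr⟩ le_rfl le_rfl).1

end comb

end Pool.Agent.Lib.MP_08e893_gt
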