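import Pool.Agent.Lib.MP_08e893_gt.Comb

/-!
The concrete well-orders `ω₁` and `ω₂`, and the colouring theorem for them.
-/

set_option autoImplicit false

namespace Pool.Agent.Lib.MP_08e893_gt

open Set Cardinal

/-- The well-order of type `ω₁`. -/
abbrev W1 : Type := (ℵ_ 1 : Cardinal.{0}).ord.ToType
/-- The well-order of type `ω₂`. -/
abbrev W2 : Type := (ℵ_ 2 : Cardinal.{0}).ord.ToType

theorem mk_W1 : #W1 = ℵ_ 1 := Cardinal.mk_ord_toType _
theorem mk_W2 : #W2 = ℵ_ 2 := Cardinal.mk_ord_toType _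

theorem aleph_two_eq : (ℵ_ 2 : Cardinal.{0}) = Order.succ (ℵ_ 1) := by
  rw [Cardinal.succ_aleph]
  congr 1
  norm_num

theorem aleph_one_eq : (ℵ_ 1 : Cardinal.{0}) = Order.succ ℵ₀ := Cardinal.succ_aleph0.symm

theorem mk_W1_lt_W2 : #W1 < #W2 := by
  rw [mk_W1, mk_W2, aleph_two_eq]; exact Order.lt_succ _

theorem aleph0_le_W1 : ℵ₀ ≤ #W1 := by rw [mk_W1]; exact Cardinal.aleph0_le_aleph 1

theorem mk_Iio_W1 (a : W1) : #(Set.Iio a) < ℵ_ 1 := by
  have := Cardinal.mk_Iio_lt a (by simp)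
  rwa [mk_W1] at this

theorem mk_Iio_W2 (b : W2) : #(Set.Iio b) ≤ #W1 := by
  have h1 := Cardinal.mk_Iio_lt b (by simp)
  have h2 := (h1.trans_eq mk_W2).trans_eq aleph_two_eq
  exact (Order.lt_succ_iff.mp h2).trans_eq mk_W1.symm

theorem mk_Iic_W2 (b : W2) : #(Set.Iic b) ≤ #W1 := by
  have h : Set.Iic b = insert b (Set.Iio b) := by
    ext x; simp [le_iff_eq_or_lt]
  rw [h]
  calc #↑(insert b (Set.Iio b)) ≤ #(Set.Iio b) + 1 := Cardinal.mk_insert_le
    _ ≤ #W1 + #W1 := add_le_add (mk_Iio_W2 b) ((Cardinal.one_le_aleph0).trans aleph0_le_W1)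
    _ = #W1 := Cardinal.add_eq_self aleph0_le_W1

theorem setupW : Setup W1 W2 where
  neA := by
    rw [← Cardinal.mk_ne_zero_iff]
    exact (Cardinal.aleph0_pos.trans_le aleph0_le_W1).ne'
  neB := by
    rw [← Cardinal.mk_ne_zero_iff]
    exact (Cardinal.aleph0_pos.trans_le (aleph0_le_W1.trans mk_W1_lt_W2.le)).ne'
  surjN := by
    have : Infinite W1 := Cardinal.infinite_iff.mpr aleph0_le_W1
    exact ⟨Function.invFun (Infinite.natEmbedding W1),
      Function.invFun_surjective (Infinite.natEmbedding W1).injective⟩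
  cntA := by
    intro a
    rw [← Cardinal.le_aleph0_iff_set_countable]
    exact Order.lt_succ_iff.mp ((mk_Iio_W1 a).trans_eq aleph_one_eq)
  cofA := by
    intro s hs
    by_contra hcon
    push Not at hcon
    have h1 : (Set.univ : Set W1) ⊆ ⋃ x ∈ s, Set.Iic x := by
      intro a _
      obtain ⟨x, hx, hax⟩ := hcon a
      exact Set.mem_biUnion hx hax
    have h2 : (⋃ x ∈ s, Set.Iic x : Set W1).Countable := by
      apply Set.Countable.biUnion hs
      intro x _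
      have : Set.Iic x = insert x (Set.Iio x) := by
        ext y; simp [le_iff_eq_or_lt]
      rw [this]
      apply Set.Countable.insert
      rw [← Cardinal.le_aleph0_iff_set_countable]
      exact Order.lt_succ_iff.mp ((mk_Iio_W1 x).trans_eq aleph_one_eq)
    have h3 := h2.mono h1
    rw [← Cardinal.le_aleph0_iff_set_countable, Cardinal.mk_univ, mk_W1] at h3
    exact absurd h3 (not_le.mpr Cardinal.aleph0_lt_aleph_one)
  sizeB := by
    classical
    intro b
    obtain ⟨j⟩ := Cardinal.le_def _ _ |>.mp (mk_Iio_W2 b)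
    refine ⟨fun a => if h : ∃ x : Set.Iio b, j x = a then (h.choose : W2) else b, ?_⟩
    intro x hx
    refine ⟨j ⟨x, hx⟩, ?_⟩
    have h : ∃ y : Set.Iio b, j y = j ⟨x, hx⟩ := ⟨⟨x, hx⟩, rfl⟩
    beta_reduce
    rw [dif_pos h]
    have := j.injective h.choose_spec
    rw [this]
  cofB := by
    intro f
    by_contra hcon
    push Not at hcon
    have h1 : (Set.univ : Set W2) ⊆ ⋃ a, Set.Iic (f a) := by
      intro b _
      obtain ⟨a, ha⟩ := hcon b
      exact Set.mem_iUnion.mpr ⟨a, ha⟩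
    have h2 : #W2 ≤ #(⋃ a, Set.Iic (f a) : Set W2) := by
      rw [← Cardinal.mk_univ]
      exact Cardinal.mk_le_mk_of_subset h1
    have h3 : #(⋃ a, Set.Iic (f a) : Set W2) ≤ #W1 * #W1 := by
      refine (Cardinal.mk_iUnion_le _).trans ?_
      gcongr
      exact ciSup_le' fun a => mk_Iic_W2 (f a)
    rw [Cardinal.mul_eq_self aleph0_le_W1] at h3
    exact absurd (h2.trans h3) (not_le.mpr mk_W1_lt_W2)

theorem unbW (U : Set W2) (hU : ∀ x, ∃ u ∈ U, x < u) : #W1 < #U := by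
  classical
  by_contra hcon
  rw [not_lt] at hcon
  obtain ⟨j⟩ := Cardinal.le_def _ _ |>.mp hcon
  obtain ⟨b0⟩ := setupW.neB
  obtain ⟨u0, hu0, _⟩ := hU b0
  have : Nonempty U := ⟨⟨u0, hu0⟩⟩
  obtain ⟨b, hb⟩ := setupW.cofB (fun a => ((Function.invFun j a : U) : W2))
  obtain ⟨u, hu, hbu⟩ := hU b
  have h1 := hb (j ⟨u, hu⟩)
  rw [Function.leftInverse_invFun j.injective] at h1
  exact lt_asymm h1 hbu

/-- The colouring theorem for `ω₂`. -/
theorem combW (T : Type) [Nonempty T] [Countable T] :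
    ∃ col : W2 → W2 → T, ∀ (ι : Type) (_ : #W1 < #ι) (m : ℕ) (a : ι → Fin m → W2)
      (_ : ∀ i, StrictMono (a i)),
      ∃ r, r ≤ m ∧ ∀ H : Fin m → Fin m → T, ∃ i j, i ≠ j ∧
        (∀ k : Fin m, k.1 < r → a i k = a j k) ∧
        (∀ l k : Fin m, r ≤ l.1 → r ≤ k.1 → a i l < a j k ∧ col (a i l) (a j k) = H l k) :=
  comb setupW aleph0_le_W1 mk_W1_lt_W2 unbW mk_Iic_W2 T
    ((Cardinal.mk_le_aleph0).trans aleph0_le_W1)

end Pool.Agent.Lib.MP_08e893_gt
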