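import Pool.Agent.Lib.MP_08e893_gt.Walks

/-!
The combinatorial core: locating a common point on walks between finite sets.
-/

set_option autoImplicit false
set_option linter.unusedSectionVars false

namespace Pool.Agent.Lib.MP_08e893_gt

open Set

section evdiff

variable {A B : Type} [LinearOrder A] [WellFoundedLT A] [LinearOrder B] [WellFoundedLT B]

/-- There is a family of pairwise eventually different functions `A → A` indexed by `B`. -/
theorem Setup.exists_evdiff (S : Setup A B) :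
    ∃ s : B → A → A, ∀ β β' : B, β ≠ β' → ∃ e : A, ∀ ζ, e < ζ → s β ζ ≠ s β' ζ := by
  classical
  choose f hf using S.sizeB
  -- index of `α` in the enumeration of `β`
  have neA := S.neA
  have key : ∀ (β : B) (t : ∀ α : B, α < β → A → A) (ζ : A),
      ∃ y : A, ∀ (ζ' : A), ζ' < ζ → ∀ h : f β ζ' < β, y ≠ t (f β ζ') h ζ := by
    intro β t ζ
    have hc : (Set.range fun p : {ζ' : A // ζ' < ζ} =>
        if h : f β p.1 < β then t (f β p.1) h ζ else ζ).Countable := by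
      have : Countable {ζ' : A // ζ' < ζ} := (S.cntA ζ).to_subtype
      exact Set.countable_range _
    obtain ⟨y, hy⟩ := S.cofA _ hc
    refine ⟨y, ?_⟩
    intro ζ' h1 h2 h3
    have h4 := hy (t (f β ζ') h2 ζ) ⟨⟨ζ', h1⟩, by simp [h2]⟩
    exact absurd h3 (ne_of_gt h4)
  let F : ∀ β : B, (∀ α : B, α < β → A → A) → A → A := fun β t ζ => Classical.choose (key β t ζ)
  let s : B → A → A := (wellFounded_lt (α := B)).fix F
  have hs : ∀ β, s β = F β (fun α _ => s α) := fun β => WellFounded.fix_eq _ F β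
  have hlt : ∀ β β' : B, β' < β → ∃ e : A, ∀ ζ, e < ζ → s β ζ ≠ s β' ζ := by
    intro β β' h
    obtain ⟨e, he⟩ := hf β β' h
    refine ⟨e, ?_⟩
    intro ζ hζ
    have h1 := Classical.choose_spec (key β (fun α _ => s α) ζ) e hζ (by rw [he]; exact h)
    rw [he] at h1
    rw [hs β]
    exact h1
  refine ⟨s, ?_⟩
  intro β β' hne
  rcases lt_or_gt_of_ne hne with h | h
  · obtain ⟨e, he⟩ := hlt β' β h
    exact ⟨e, fun ζ hζ heq => he ζ hζ heq.symm⟩
  · exact hlt β β' h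

theorem Setup.exists_countEnum (S : Setup A B) :
    ∃ E : A → ℕ → A, ∀ c x : A, x < c → ∃ n, E c n = x := by
  classical
  have : ∀ c : A, ∃ g : ℕ → A, ∀ x < c, ∃ n, g n = x := by
    intro c
    rcases (Set.Iio c).eq_empty_or_nonempty with h | h
    · refine ⟨fun _ => c, ?_⟩
      intro x hx
      exact absurd (show x ∈ Set.Iio c from hx) (by rw [h]; simp)
    · obtain ⟨g, hg⟩ := (S.cntA c).exists_eq_range h
      refine ⟨g, ?_⟩
      intro x hx
      have : x ∈ Set.range g := by rw [← hg]; exact hx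
      exact this
  choose E hE using this
  exact ⟨E, hE⟩

end evdiff

section loc

variable {A B : Type}
variable (s : B → A → A) (E : A → ℕ → A)

/-- `p` is the part of the walk before the entry `e`; `n` is the total length. -/
def Valid (n : ℕ) (p : List (B × A)) (e : B × A) : Prop :=
  ∀ x ∈ p, ∀ y ∈ p, ∃ i ≤ n, E e.2 i = s x.1 y.2

/-- `d` is the point at the last valid entry of `l`. -/
def IsLoc (l : List (B × A)) (d : B) : Prop :=
  ∃ (p : List (B × A)) (e : B × A) (q : List (B × A)), l = p ++ e :: q ∧ e.1 = d ∧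
    Valid s E l.length p e ∧
    ∀ (q1 : List (B × A)) (e' : B × A) (q2 : List (B × A)), q = q1 ++ e' :: q2 →
      ¬ Valid s E l.length (p ++ e :: q1) e'

theorem IsLoc.unique {l : List (B × A)} {d d' : B} (h : IsLoc s E l d) (h' : IsLoc s E l d') :
    d = d' := by
  obtain ⟨p, e, q, hl, hd, hv, hq⟩ := h
  obtain ⟨p', e', q', hl', hd', hv', hq'⟩ := h'
  have heq : p ++ e :: q = p' ++ e' :: q' := by rw [← hl, ← hl']
  rw [List.append_eq_append_iff] at heq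
  rcases heq with ⟨a, ha1, ha2⟩ | ⟨a, ha1, ha2⟩
  · -- p' = p ++ a, e :: q = a ++ e' :: q'
    cases a with
    | nil =>
      simp at ha2
      rw [← hd, ← hd', ha2.1]
    | cons c a =>
      simp only [List.cons_append, List.cons.injEq] at ha2
      obtain ⟨rfl, hq2⟩ := ha2
      exact absurd (by rw [← ha1]; exact hv') (hq a e' q' hq2)
  · cases a with
    | nil =>
      simp at ha2
      rw [← hd, ← hd', ha2.1]
    | cons c a =>
      simp only [List.cons_append, List.cons.injEq] at ha2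
      obtain ⟨rfl, hq2⟩ := ha2
      exact absurd (by rw [← ha1]; exact hv) (hq' a e q hq2)

end loc

section core

variable {A B : Type} [LinearOrder A] [WellFoundedLT A] [LinearOrder B] [WellFoundedLT B]
variable {L : B → A → B}

/-- The combinatorial core. -/
theorem core [Nonempty A] (S : Setup A B) (hL : Enum L)
    (s : B → A → A) (hs : ∀ β β' : B, β ≠ β' → ∃ e : A, ∀ ζ, e < ζ → s β ζ ≠ s β' ζ)
    (E : A → ℕ → A) (hE : ∀ c x : A, x < c → ∃ n, E c n = x)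
    (hpig : ∀ U : Set B, (∀ x, ∃ u ∈ U, x < u) → ∀ f : B → Finset A × ℕ,
      ∃ p, {u | u ∈ U ∧ f u = p}.Infinite)
    (𝒜 : Set (Finset B)) (h𝒜 : ∀ γ, ∃ a ∈ 𝒜, ∀ x ∈ a, γ < x)
    (P : Set B) (hPgood : ∀ δ ∈ P, Good δ) (hP : Stat P) :
    ∃ a ∈ 𝒜, ∃ b ∈ 𝒜, ∃ δ ∈ P, ∀ α ∈ a, ∀ β ∈ b,
      α < δ ∧ δ < β ∧ IsLoc s E (tr L hL α β) δ := by
  classical
  have neB := S.neB
  obtain ⟨binf, hbinf⟩ := long_walks' S hL 𝒜 h𝒜
  have hd : ∀ γ, ∃ δ' : B, Good δ' ∧ γ < δ' ∧ ∀ x < δ', binf x < δ' := by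
    intro γ
    obtain ⟨δ', h1, h2, h3⟩ := S.stat_good (B := B) binf γ
    exact ⟨δ', h1, h2, h3⟩
  choose d hd1 hd2 hd3 using hd
  choose bb hbb1 hbb2 using h𝒜
  have hg : ∀ δ : B, ∃ g : B, Good δ → g < δ ∧ ∀ β ∈ bb δ, ∀ α, g < α → α ≤ δ →
      tr L hL α β = tr L hL δ β ++ tr L hL α δ := by
    intro δ
    by_cases hδ : Good δ
    · choose! γ hγ1 hγ2 using fun β (hβ : β ∈ bb δ) => tr_append S.cntA hL hδ β (hbb2 δ β hβ)
      obtain ⟨g, hg1, hg2⟩ := hδ (γ '' (bb δ : Set B)) ((bb δ).countable_toSet.image γ) (by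
        rintro x ⟨β, hβ, rfl⟩
        exact hγ1 β hβ)
      refine ⟨g, fun _ => ⟨hg1, ?_⟩⟩
      intro β hβ α h1 h2
      exact hγ2 β hβ α (lt_trans (hg2 _ ⟨β, hβ, rfl⟩) h1) h2
    · exact ⟨δ, fun h => absurd h hδ⟩
  choose g hg using hg
  obtain ⟨γs, hγs⟩ := (S.stat_good (B := B)).fodor g (fun δ hδ => (hg δ hδ).1)
  obtain ⟨δ0, hδ0P, hδ0γ, hδ0cl⟩ := hP d γs
  have hδ0 : Good δ0 := hPgood δ0 hδ0P
  let Y : Set A := {ζ | ∃ δ', Good δ' ∧ (∀ x < δ', binf x < δ') ∧ δ' < δ0 ∧ code L δ0 δ' = ζ}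
  have hY : ∀ z : A, ∃ ζ ∈ Y, z < ζ := by
    intro z
    have hIic : (Set.Iic z).Countable := by
      have : Set.Iic z = insert z (Set.Iio z) := by
        ext x; simp [le_iff_eq_or_lt]
      rw [this]
      exact (S.cntA z).insert z
    obtain ⟨γ, hγ1, hγ2⟩ := hδ0 (L δ0 '' Set.Iic z) (hIic.image _) (by
      rintro x ⟨ζ, _, rfl⟩
      exact hL.lt δ0 γs ζ hδ0γ)
    have hlt : d γ < δ0 := hδ0cl γ hγ1
    refine ⟨code L δ0 (d γ), ⟨d γ, hd1 γ, hd3 γ, hlt, rfl⟩, ?_⟩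
    by_contra hcon
    push Not at hcon
    have h1 := hγ2 (L δ0 (code L δ0 (d γ))) ⟨_, hcon, rfl⟩
    have h2 : d γ ≤ L δ0 (code L δ0 (d γ)) := hL.le_nxt hlt
    exact absurd (lt_of_le_of_lt h2 h1) (not_lt.mpr (hd2 γ).le)
  -- choice of the lower finite set
  have hlow : ∀ (W0 : Finset A) (ζ : A), ∃ a : Finset B, ζ ∈ Y → (∀ w ∈ W0, w < ζ) →
      a ∈ 𝒜 ∧ ∀ α ∈ a, α < δ0 ∧ code L δ0 α = ζ ∧
        ∀ w ∈ W0, ∃ i ≤ (tr L hL α δ0).length, E ζ i = w := by
    intro W0 ζ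
    by_cases h1 : ζ ∈ Y
    · by_cases h2 : ∀ w ∈ W0, w < ζ
      · obtain ⟨δ', hδ', hcl', hlt', hcode'⟩ := h1
        choose! i hi using fun w (hw : w ∈ W0) => hE ζ w (h2 w hw)
        let v := W0.sup i
        obtain ⟨γ', hγ', htr⟩ := tr_append S.cntA hL hδ' δ0 hlt'
        obtain ⟨a, ha, ha'⟩ := hbinf δ' hδ' hcl' v γ' hγ'
        refine ⟨a, fun _ _ => ⟨ha, ?_⟩⟩
        intro α hα
        obtain ⟨h3, h4, h5⟩ := ha' α hα
        have h6 := htr α h3 h4.le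
        have h7 : α < δ0 := lt_trans h4 hlt'
        refine ⟨h7, ?_, ?_⟩
        · rw [tr_of_lt hL h7, tr_of_lt hL hlt', List.cons_append] at h6
          have h8 := (List.cons.inj h6).1
          rw [← hcode']
          exact (Prod.mk.inj h8).2
        · intro w hw
          refine ⟨i w, ?_, hi w hw⟩
          have h9 : i w ≤ v := Finset.le_sup hw
          rw [h6, List.length_append]
          omega
      · exact ⟨∅, fun _ h => absurd h h2⟩
    · exact ⟨∅, fun h => absurd h h1⟩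
  choose lo hlo using hlow
  let Φ : Finset A → ℕ → A → Set A := fun W0 K ζ =>
    {x | ∃ α ∈ lo W0 ζ, ∃ e ∈ tr L hL α δ0, ∃ i ≤ K + (tr L hL α δ0).length, E e.2 i = x}
  have hΦ : ∀ W0 K ζ, (Φ W0 K ζ).Finite := by
    intro W0 K ζ
    have : Φ W0 K ζ = ⋃ α ∈ (lo W0 ζ : Set B), ⋃ e ∈ {e | e ∈ tr L hL α δ0},
        (E e.2) '' {i | i ≤ K + (tr L hL α δ0).length} := by
      ext x
      simp only [Φ, Set.mem_ofPred_eq, Set.mem_iUnion, Set.mem_image, Finset.mem_coe, exists_prop]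
    rw [this]
    apply Set.Finite.biUnion (Finset.finite_toSet _)
    intro α _
    apply Set.Finite.biUnion (List.finite_toSet _)
    intro e _
    exact (Set.finite_le_nat _).image _
  let caught : Finset A → ℕ → B → Prop := fun W0 K β => ∃ z, ∀ ζ ∈ Y, z < ζ → s β ζ ∈ Φ W0 K ζ
  have hcaught : ∀ W0 K, ¬ {β | caught W0 K β}.Infinite := by
    intro W0 K hinf
    let β : ℕ ↪ {β | caught W0 K β} := hinf.natEmbedding
    choose z hz using fun n => (β n).2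
    have hne : ∀ n m, ∃ e : A, n ≠ m → ∀ ζ, e < ζ → s (β n) ζ ≠ s (β m) ζ := by
      intro n m
      by_cases h : n = m
      · exact ⟨z n, fun h' => absurd h h'⟩
      · obtain ⟨e, he⟩ := hs (β n) (β m) (fun h' => h (β.injective (Subtype.ext h')))
        exact ⟨e, fun _ => he⟩
    choose e he using hne
    obtain ⟨b, hb⟩ := S.cofA (Set.range z ∪ Set.range fun p : ℕ × ℕ => e p.1 p.2)
      ((Set.countable_range _).union (Set.countable_range _))
    obtain ⟨ζ, hζY, hζ⟩ := hY b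
    have hinj : Function.Injective (fun n => s (β n) ζ) := by
      intro n m hnm
      by_contra hne
      exact he n m hne ζ (lt_trans (hb _ (Or.inr ⟨(n, m), rfl⟩)) hζ) hnm
    exact Set.infinite_of_injective_forall_mem hinj
      (fun n => hz n ζ hζY (lt_trans (hb _ (Or.inl ⟨n, rfl⟩)) hζ)) (hΦ W0 K ζ)
  obtain ⟨δm, hδm, hδ0m, hgm, hnc⟩ : ∃ δm, Good δm ∧ δ0 < δm ∧ g δm ≤ γs ∧
      ∀ W0 K, ¬ caught W0 K δm := by
    by_contra hcon
    push Not at hcon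
    let U : Set B := {δ | Good δ ∧ δ0 < δ ∧ g δ ≤ γs}
    have hU : ∀ x, ∃ u ∈ U, x < u := by
      intro x
      obtain ⟨δ, h1, h2, h3⟩ := hγs (max x δ0)
      exact ⟨δ, ⟨h1, lt_of_le_of_lt (le_max_right _ _) h2, h3⟩,
        lt_of_le_of_lt (le_max_left _ _) h2⟩
    have : ∀ δ, ∃ p : Finset A × ℕ, δ ∈ U → caught p.1 p.2 δ := by
      intro δ
      by_cases h : δ ∈ U
      · obtain ⟨W0, K, h'⟩ := hcon δ h.1 h.2.1 h.2.2
        exact ⟨(W0, K), fun _ => h'⟩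
      · exact ⟨(∅, 0), fun h' => absurd h' h⟩
    choose f hf using this
    obtain ⟨p, hp⟩ := hpig U hU f
    apply hcaught p.1 p.2
    apply hp.mono
    rintro δ ⟨h1, h2⟩
    have := hf δ h1
    rw [h2] at this
    exact this
  -- data of the upper part
  obtain ⟨W0, hW0⟩ : ∃ W0 : Finset A, ∀ β ∈ bb δm, ∀ x ∈ tr L hL δ0 β, ∀ y ∈ tr L hL δ0 β,
      s x.1 y.2 ∈ W0 := by
    refine ⟨(bb δm).biUnion fun β => ((tr L hL δ0 β).toFinset ×ˢ (tr L hL δ0 β).toFinset).image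
      (fun q => s q.1.1 q.2.2), ?_⟩
    intro β hβ x hx y hy
    rw [Finset.mem_biUnion]
    refine ⟨β, hβ, ?_⟩
    rw [Finset.mem_image]
    exact ⟨(x, y), by simp [hx, hy], rfl⟩
  obtain ⟨K, hK⟩ : ∃ K : ℕ, ∀ β ∈ bb δm, (tr L hL δ0 β).length ≤ K :=
    ⟨(bb δm).sup fun β => (tr L hL δ0 β).length, fun β hβ =>
      Finset.le_sup (f := fun β => (tr L hL δ0 β).length) hβ⟩
  obtain ⟨γ0, hγ0, htr0⟩ := tr_append S.cntA hL hδ0 δm hδ0m
  obtain ⟨ζa, hζa⟩ := hL.surj δ0 (max γs γ0) (max_lt hδ0γ hγ0)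
  obtain ⟨z, hz⟩ := S.cofA (insert ζa (W0 : Set A)) (W0.countable_toSet.insert _)
  have hnc' : ∃ ζ ∈ Y, z < ζ ∧ s δm ζ ∉ Φ W0 K ζ := by
    have h1 := hnc W0 K
    simp only [caught] at h1
    push Not at h1
    obtain ⟨ζ, h2, h3, h4⟩ := h1 z
    exact ⟨ζ, h2, h3, h4⟩
  obtain ⟨ζ, hζY, hζz, hζΦ⟩ := hnc'
  obtain ⟨hloA, hlo'⟩ := hlo W0 ζ hζY (fun w hw => lt_trans (hz w (Or.inr hw)) hζz)
  refine ⟨lo W0 ζ, hloA, bb δm, hbb1 δm, δ0, hδ0P, ?_⟩
  intro α hα β hβ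
  obtain ⟨h1, h2, h3⟩ := hlo' α hα
  have hζa' : ζa < code L δ0 α := by rw [h2]; exact lt_trans (hz ζa (Or.inl rfl)) hζz
  have h4 : max γs γ0 < α := by
    rw [← hζa]
    exact hL.lt_of_lt_code h1 hζa'
  have h5 : γs < α := lt_of_le_of_lt (le_max_left _ _) h4
  have h6 : γ0 < α := lt_of_le_of_lt (le_max_right _ _) h4
  have hδmβ : δm < β := hbb2 δm β hβ
  have e1 : tr L hL α β = tr L hL δm β ++ tr L hL α δm :=
    (hg δm hδm).2 β hβ α (lt_of_le_of_lt hgm h5) (lt_trans h1 hδ0m).le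
  have e2 : tr L hL δ0 β = tr L hL δm β ++ tr L hL δ0 δm :=
    (hg δm hδm).2 β hβ δ0 (lt_of_le_of_lt hgm hδ0γ) hδ0m.le
  have e3 : tr L hL α δm = tr L hL δ0 δm ++ tr L hL α δ0 := htr0 α h6 h1.le
  have e4 : tr L hL α β = tr L hL δ0 β ++ tr L hL α δ0 := by
    rw [e1, e3, e2, List.append_assoc]
  have e5 : tr L hL α δ0 = (δ0, ζ) :: tr L hL α (nxt L δ0 α) := by
    rw [tr_of_lt hL h1, h2]
  refine ⟨h1, lt_trans hδ0m hδmβ, tr L hL δ0 β, (δ0, ζ), tr L hL α (nxt L δ0 α), ?_, rfl, ?_, ?_⟩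
  · rw [e4, e5]
  · intro x hx y hy
    obtain ⟨i, hi1, hi2⟩ := h3 _ (hW0 β hβ x hx y hy)
    refine ⟨i, ?_, hi2⟩
    rw [e4, List.length_append]
    omega
  · intro q1 e' q2 hq hval
    have hmem1 : (δm, code L δm δ0) ∈ tr L hL δ0 β := by
      rw [e2, tr_of_lt hL hδ0m]
      simp
    obtain ⟨i, hi1, hi2⟩ := hval (δm, code L δm δ0) (by simp [hmem1]) (δ0, ζ) (by simp)
    apply hζΦ
    refine ⟨α, hα, e', ?_, i, ?_, hi2⟩
    · rw [e5, hq]; simp
    · rw [e4, List.length_append] at hi1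
      have := hK β hβ
      omega

end core

end Pool.Agent.Lib.MP_08e893_gt
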