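import Mathlib

/-!
The triod `K` and the intermediate value argument.
-/

set_option autoImplicit false

namespace Pool.Agent.Lib.MP_08e893_gt

open Set

/-- The triod in `ℝ³`. -/
def Tri : Set (Fin 3 → ℝ) := {v | (∀ i, 0 ≤ v i ∧ v i ≤ 1) ∧ ∀ i j, i ≠ j → v i = 0 ∨ v j = 0}

/-- The triod as a space. -/
abbrev K : Type := Tri

theorem isClosed_Tri : IsClosed Tri := by
  have h : Tri = (⋂ i, {v : Fin 3 → ℝ | 0 ≤ v i ∧ v i ≤ 1}) ∩
      ⋂ i, ⋂ j, {v : Fin 3 → ℝ | i ≠ j → v i = 0 ∨ v j = 0} := by
    ext v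
    simp only [Tri, Set.mem_inter_iff, Set.mem_iInter, Set.mem_ofPred_eq]
  rw [h]
  apply IsClosed.inter
  · apply isClosed_iInter
    intro i
    exact (isClosed_le continuous_const (continuous_apply i)).inter
      (isClosed_le (continuous_apply i) continuous_const)
  · apply isClosed_iInter
    intro i
    apply isClosed_iInter
    intro j
    by_cases hij : i = j
    · simp [hij]
    · have : {v : Fin 3 → ℝ | i ≠ j → v i = 0 ∨ v j = 0} =
          {v : Fin 3 → ℝ | v i = 0} ∪ {v | v j = 0} := by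
        ext v; simp [hij]
      rw [this]
      exact (isClosed_eq (continuous_apply i) continuous_const).union
        (isClosed_eq (continuous_apply j) continuous_const)

instance : CompactSpace K := by
  rw [← isCompact_iff_compactSpace]
  apply IsCompact.of_isClosed_subset (isCompact_Icc (a := (0 : Fin 3 → ℝ)) (b := 1)) isClosed_Tri
  intro v hv
  exact ⟨fun i => (hv.1 i).1, fun i => (hv.1 i).2⟩

/-- Rationals in `(0,1]`. -/
abbrev Q01 : Type := {q : ℚ // 0 < q ∧ q ≤ 1}

/-- Indices of the special points: leg and position. -/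
abbrev QT : Type := Fin 3 × Q01

/-- The special point of index `q`. -/
noncomputable def pt (q : QT) : K :=
  ⟨fun j => if j = q.1 then (q.2.1 : ℝ) else 0, by
    constructor
    · intro i
      by_cases h : i = q.1
      · simp only [h, if_true]
        exact ⟨by exact_mod_cast q.2.2.1.le, by exact_mod_cast q.2.2.2⟩
      · simp [h]
    · intro i j hij
      by_cases h : i = q.1
      · right
        have : j ≠ q.1 := fun h' => hij (h.trans h'.symm)
        simp [this]
      · left; simp [h]⟩

theorem pt_apply (q : QT) (j : Fin 3) : (pt q).1 j = if j = q.1 then (q.2.1 : ℝ) else 0 := rfl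

theorem exists_rat_near {t ε : ℝ} (ht0 : 0 ≤ t) (ht1 : t ≤ 1) (hε : 0 < ε) :
    ∃ q : Q01, |(q.1 : ℝ) - t| < ε := by
  rcases eq_or_lt_of_le ht0 with h | h
  · obtain ⟨q, hq1, hq2⟩ := exists_rat_btwn (show (0 : ℝ) < min ε 1 from lt_min hε one_pos)
    refine ⟨⟨q, by exact_mod_cast hq1, by
      have : (q : ℝ) ≤ 1 := (hq2.trans_le (min_le_right _ _)).le
      exact_mod_cast this⟩, ?_⟩
    rw [← h, sub_zero, abs_of_pos hq1]
    exact hq2.trans_le (min_le_left _ _)
  · obtain ⟨q, hq1, hq2⟩ := exists_rat_btwn (show max (t - ε) 0 < t from max_lt (by linarith) h)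
    have h0 : (0 : ℝ) < q := lt_of_le_of_lt (le_max_right _ _) hq1
    have h1 : t - ε < q := lt_of_le_of_lt (le_max_left _ _) hq1
    refine ⟨⟨q, by exact_mod_cast h0, by
      have : (q : ℝ) ≤ 1 := (hq2.trans_le ht1).le
      exact_mod_cast this⟩, ?_⟩
    rw [abs_lt]
    constructor <;> simp only <;> linarith

/-- Density of special points off leg `b`. -/
theorem mem_closure_pt (x : K) (b : Fin 3) (hb : x.1 b = 0) :
    x ∈ closure {y : K | ∃ q : QT, q.1 ≠ b ∧ y = pt q} := by
  rw [Metric.mem_closure_iff]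
  intro ε hε
  obtain ⟨i, hib, hi⟩ : ∃ i, i ≠ b ∧ ∀ j, j ≠ i → x.1 j = 0 := by
    by_cases h : ∃ i, x.1 i ≠ 0
    · obtain ⟨i, hi⟩ := h
      refine ⟨i, fun h' => hi (h' ▸ hb), ?_⟩
      intro j hj
      rcases x.2.2 i j (Ne.symm hj) with h1 | h1
      · exact absurd h1 hi
      · exact h1
    · push Not at h
      obtain ⟨i, hi⟩ : ∃ i : Fin 3, i ≠ b := by
        fin_cases b
        · exact ⟨1, by decide⟩
        · exact ⟨0, by decide⟩
        · exact ⟨0, by decide⟩
      exact ⟨i, hi, fun j _ => h j⟩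
  obtain ⟨q, hq⟩ := exists_rat_near (x.2.1 i).1 (x.2.1 i).2 hε
  refine ⟨pt (i, q), ⟨(i, q), hib, rfl⟩, ?_⟩
  rw [Subtype.dist_eq, dist_pi_lt_iff hε]
  intro j
  rw [pt_apply, Real.dist_eq]
  by_cases hj : j = i
  · simp only [hj, if_true]
    rw [abs_sub_comm]; exact hq
  · simp only [hj, if_false, hi j hj]
    simpa using hε

theorem exists_zero (x : K) : ∃ b, x.1 b = 0 := by
  rcases x.2.2 0 1 (by decide) with h | h
  · exact ⟨0, h⟩
  · exact ⟨1, h⟩

theorem isPreconnected_off (b : Fin 3) : IsPreconnected {x : K | x.1 b = 0} := by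
  rw [← Topology.IsInducing.subtypeVal.isPreconnected_image]
  have h : Subtype.val '' {x : K | x.1 b = 0} = {v : Fin 3 → ℝ | v ∈ Tri ∧ v b = 0} := by
    ext v
    constructor
    · rintro ⟨x, hx, rfl⟩; exact ⟨x.2, hx⟩
    · rintro ⟨h1, h2⟩; exact ⟨⟨v, h1⟩, h2, rfl⟩
  rw [h]
  have h0 : (0 : Fin 3 → ℝ) ∈ {v : Fin 3 → ℝ | v ∈ Tri ∧ v b = 0} := by
    refine ⟨⟨fun i => by simp, fun i j _ => by simp⟩, by simp⟩
  have hs : StarConvex ℝ (0 : Fin 3 → ℝ) {v : Fin 3 → ℝ | v ∈ Tri ∧ v b = 0} := by
    intro v hv s t hs ht hst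
    have ht1 : t ≤ 1 := by linarith
    have he : s • (0 : Fin 3 → ℝ) + t • v = t • v := by simp
    rw [he]
    refine ⟨⟨fun i => ?_, fun i j hij => ?_⟩, ?_⟩
    · simp only [Pi.smul_apply, smul_eq_mul]
      obtain ⟨h1, h2⟩ := hv.1.1 i
      exact ⟨by positivity, by nlinarith⟩
    · simp only [Pi.smul_apply, smul_eq_mul]
      rcases hv.1.2 i j hij with h1 | h1
      · left; simp [h1]
      · right; simp [h1]
    · simp [hv.2]
  exact (hs.isPathConnected h0).isConnected.isPreconnected

theorem isPreconnected_Tri : IsPreconnected (Set.univ : Set K) := by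
  have h : (Set.univ : Set K) = ⋃ b : Fin 3, {x : K | x.1 b = 0} := by
    ext x
    simp only [Set.mem_univ, Set.mem_iUnion, Set.mem_ofPred_eq, true_iff]
    exact exists_zero x
  rw [h]
  apply isPreconnected_iUnion (⟨⟨0, ⟨fun i => by simp, fun i j _ => by simp⟩⟩, by simp⟩)
  intro b
  exact isPreconnected_off b

/-- Colours: triples of special points which are not on the legs `0,1,2` in this order. -/
abbrev TT : Type := {t : Fin 3 → QT // ¬ ∀ i, (t i).1 = i}

theorem sort3 (v : Fin 3 → ℝ) : ∃ a b c : Fin 3, a ≠ b ∧ b ≠ c ∧ a ≠ c ∧ v a ≤ v b ∧ v b ≤ v c := by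
  rcases le_total (v 0) (v 1) with h1 | h1 <;> rcases le_total (v 1) (v 2) with h2 | h2 <;>
    rcases le_total (v 0) (v 2) with h3 | h3
  · exact ⟨0, 1, 2, by decide, by decide, by decide, h1, h2⟩
  · exact ⟨0, 1, 2, by decide, by decide, by decide, h1, h2⟩
  · exact ⟨0, 2, 1, by decide, by decide, by decide, h3, h2⟩
  · exact ⟨2, 0, 1, by decide, by decide, by decide, h3, h1⟩
  · exact ⟨1, 0, 2, by decide, by decide, by decide, h1, h3⟩
  · exact ⟨1, 2, 0, by decide, by decide, by decide, h2, h3⟩
  · exact ⟨2, 1, 0, by decide, by decide, by decide, h2, h1⟩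
  · exact ⟨2, 1, 0, by decide, by decide, by decide, h2, h1⟩

theorem three (a b c : Fin 3) (h1 : a ≠ b) (h2 : b ≠ c) (h3 : a ≠ c) (i : Fin 3) :
    i = a ∨ i = b ∨ i = c := by
  revert a b c i; decide

/-- The intermediate value argument. -/
theorem ivt_claim {m : ℕ} (P : C(Fin m → K, ℝ)) (r : ℕ) (Z : Fin 3 → Fin m → QT)
    (hZ : ∀ k : Fin m, k.1 < r → ∀ i j, Z i k = Z j k) (ε : ℝ) (hε : 0 < ε) :
    ∃ G : Fin m → TT, ∀ i, |P (fun k => if k.1 < r then pt (Z i k) else pt ((G k).1 i)) -
      P (fun k => pt (Z i k))| < ε := by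
  classical
  obtain ⟨a, b, c, hab, hbc, hac, h1, h2⟩ := sort3 (fun i => P (fun k => pt (Z i k)))
  -- admissible indices at each coordinate
  let cond : Fin m → QT → Prop := fun k q =>
    if k.1 < r then q = Z a k else if (Z a k).1 = a ∧ (Z c k).1 = c then q.1 ≠ b else True
  let W : Fin m → Set K := fun k =>
    if k.1 < r then {pt (Z a k)} else if (Z a k).1 = a ∧ (Z c k).1 = c then {x | x.1 b = 0}
    else Set.univ
  have hW : ∀ k, IsPreconnected (W k) := by
    intro k
    simp only [W]
    split_ifs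
    · exact isPreconnected_singleton
    · exact isPreconnected_off b
    · exact isPreconnected_Tri
  have hWcl : ∀ k, W k ⊆ closure {y | ∃ q, cond k q ∧ y = pt q} := by
    intro k x hx
    simp only [W] at hx
    split_ifs at hx with h3 h4
    · apply subset_closure
      refine ⟨Z a k, ?_, hx⟩
      simp [cond, h3]
    · have h5 := mem_closure_pt x b hx
      refine closure_mono ?_ h5
      rintro y ⟨q, hq, rfl⟩
      refine ⟨q, ?_, rfl⟩
      simp only [cond, h3, if_false]
      rw [if_pos h4]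
      exact hq
    · obtain ⟨b', hb'⟩ := exists_zero x
      have h5 := mem_closure_pt x b' hb'
      refine closure_mono ?_ h5
      rintro y ⟨q, hq, rfl⟩
      refine ⟨q, ?_, rfl⟩
      simp only [cond, h3, if_false]
      rw [if_neg h4]
      trivial
  have hza : (fun k => pt (Z a k)) ∈ Set.univ.pi W := by
    intro k _
    simp only [W]
    split_ifs with h3 h4
    · rfl
    · show (pt (Z a k)).1 b = 0
      rw [pt_apply, if_neg]
      rw [h4.1]; exact hab.symm
    · trivial
  have hzc : (fun k => pt (Z c k)) ∈ Set.univ.pi W := by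
    intro k _
    simp only [W]
    split_ifs with h3 h4
    · rw [hZ k h3 c a]; rfl
    · show (pt (Z c k)).1 b = 0
      rw [pt_apply, if_neg]
      rw [h4.2]; exact hbc
    · trivial
  have hpre : IsPreconnected (Set.univ.pi W) := isPreconnected_univ_pi hW
  have hivt := hpre.intermediate_value hza hzc P.continuous.continuousOn
  obtain ⟨u, huW, hu⟩ := hivt ⟨h1, h2⟩
  have hucl : u ∈ closure (Set.univ.pi fun k => {y | ∃ q, cond k q ∧ y = pt q}) := by
    rw [closure_pi_set]
    intro k hk
    exact hWcl k (huW k hk)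
  have hnb : {w : Fin m → K | |P w - P u| < ε} ∈ nhds u := by
    have h3 : Continuous fun w : Fin m → K => |P w - P u| :=
      (P.continuous.sub continuous_const).abs
    apply h3.isOpen_preimage (Set.Iio ε) isOpen_Iio |>.mem_nhds
    simp [hε]
  obtain ⟨w, hw1, hw2⟩ := mem_closure_iff_nhds.mp hucl _ hnb
  have hw2' : ∀ k, ∃ q, cond k q ∧ w k = pt q := fun k => hw2 k (Set.mem_univ k)
  choose g hg1 hg2 using hw2'
  have hG : ∀ k : Fin m, ∃ t : TT, ¬ k.1 < r → t.1 a = Z a k ∧ t.1 b = g k ∧ t.1 c = Z c k := by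
    intro k
    by_cases h3 : k.1 < r
    · refine ⟨⟨fun _ => (0, ⟨1, by norm_num⟩), fun h => ?_⟩, fun h => absurd h3 h⟩
      have := h 1
      simp at this
    · refine ⟨⟨fun i => if i = a then Z a k else if i = b then g k else Z c k, ?_⟩, fun _ => ?_⟩
      · intro h
        have ha := h a
        have hb := h b
        have hc := h c
        simp only [if_true] at ha
        simp only [hab.symm, if_false, if_true] at hb
        simp only [hac.symm, hbc.symm, if_false] at hc
        have h4 := hg1 k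
        simp only [cond, h3, if_false] at h4
        rw [if_pos ⟨ha, hc⟩] at h4
        exact h4 hb
      · refine ⟨?_, ?_, ?_⟩
        · simp
        · simp [hab.symm]
        · simp [hac.symm, hbc.symm]
  choose G hG using hG
  refine ⟨G, ?_⟩
  intro i
  rcases three a b c hab hbc hac i with rfl | rfl | rfl
  · have : (fun k => if k.1 < r then pt (Z i k) else pt ((G k).1 i)) = fun k => pt (Z i k) := by
      funext k
      split_ifs with h3
      · rfl
      · rw [(hG k h3).1]
    rw [this]; simpa using hε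
  · have : (fun k => if k.1 < r then pt (Z i k) else pt ((G k).1 i)) = w := by
      funext k
      split_ifs with h3
      · rw [hg2 k]
        have h4 := hg1 k
        simp only [cond, h3, if_true] at h4
        rw [h4, hZ k h3 i a]
      · rw [(hG k h3).2.1, hg2 k]
    rw [this, ← hu]
    exact hw1
  · have : (fun k => if k.1 < r then pt (Z i k) else pt ((G k).1 i)) = fun k => pt (Z i k) := by
      funext k
      split_ifs with h3
      · rfl
      · rw [(hG k h3).2.2]
    rw [this]; simpa using hε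

end Pool.Agent.Lib.MP_08e893_gt
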