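import Pool.Agent.Lib.MP_08e893_gt.Concrete
import Pool.Agent.Lib.MP_08e893_gt.Triod

/-!
The space `X = K^{ω₂}` and its subset `Y`.
-/

set_option autoImplicit false

namespace Pool.Agent.Lib.MP_08e893_gt

open Set Cardinal

/-- The ambient space. -/
abbrev XX : Type := W2 → K

theorem TT_nonempty : Nonempty TT :=
  ⟨⟨fun _ => (0, ⟨1, by norm_num⟩), fun h => by have := h 1; simp at this⟩⟩

/-- The point `(0,1)` of the special set. -/
abbrev q1 (i : Fin 3) : QT := (i, ⟨1, by norm_num⟩)

variable (col : W2 → W2 → TT)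

open Classical in
/-- Coordinates of the point `y_{β,i}`, as indices of special points. -/
noncomputable def yc (β : W2) (i : Fin 3) (α : W2) : QT :=
  if α < β then q1 0 else if α = β then q1 i else (col β α).1 i

/-- The points `y_{β,i}`. -/
noncomputable def yy (β : W2) (i : Fin 3) : XX := fun α => pt (yc col β i α)

/-- The subset `Y`. -/
def YY : Set XX := Set.range fun p : W2 × Fin 3 => yy col p.1 p.2

/-- The leg function. -/
noncomputable def leg (x : K) : ℝ := (x.1 1 + 2 * x.1 2) / (x.1 0 + x.1 1 + x.1 2)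

theorem leg_pt (q : QT) : leg (pt q) = (q.1.1 : ℝ) := by
  obtain ⟨i, q⟩ := q
  have hq : (q.1 : ℝ) ≠ 0 := by
    have := q.2.1
    exact_mod_cast this.ne'
  unfold leg
  fin_cases i
  · simp [pt_apply]
  · simp [pt_apply, hq]
  · simp [pt_apply, hq]

theorem leg_continuousAt (q : QT) : ContinuousAt leg (pt q) := by
  have h : (pt q).1 0 + (pt q).1 1 + (pt q).1 2 ≠ 0 := by
    obtain ⟨i, q⟩ := q
    have hq : (q.1 : ℝ) ≠ 0 := by
      have := q.2.1
      exact_mod_cast this.ne'
    fin_cases i <;> simp [pt_apply, hq]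
  have hc : ∀ j : Fin 3, Continuous fun x : K => x.1 j := fun j =>
    (continuous_apply j).comp continuous_subtype_val
  exact ContinuousAt.div (f := fun x : K => x.1 1 + 2 * x.1 2)
    (g := fun x : K => x.1 0 + x.1 1 + x.1 2)
    ((hc 1).add (continuous_const.mul (hc 2))).continuousAt
    (((hc 0).add (hc 1)).add (hc 2)).continuousAt h

theorem leg_eq_of_lt (q : QT) (i : Fin 3) : leg (pt q) = (i.1 : ℝ) ↔ q.1 = i := by
  rw [leg_pt]
  constructor
  · intro h
    exact Fin.ext (by exact_mod_cast h)
  · rintro rfl; rfl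

/-- The functions giving a large discrete set in `C_p(Y)`. -/
noncomputable def gg (α : W2) : C(YY col, ℝ) where
  toFun y := leg (y.1 α)
  continuous_toFun := by
    rw [continuous_iff_continuousAt]
    rintro ⟨_, ⟨β, i⟩, rfl⟩
    have h1 : ContinuousAt (fun y : YY col => y.1 α) ⟨yy col β i, ⟨(β, i), rfl⟩⟩ :=
      ((continuous_apply α).comp continuous_subtype_val).continuousAt
    exact ContinuousAt.comp (f := fun y : YY col => y.1 α) (g := leg)
      (leg_continuousAt (yc col β i α)) h1

/-- The point `y_{β,i}` as a member of `Y`. -/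
noncomputable def yY (β : W2) (i : Fin 3) : YY col := ⟨yy col β i, ⟨(β, i), rfl⟩⟩

theorem gg_self (α : W2) (i : Fin 3) : gg col α (yY col α i) = (i.1 : ℝ) := by
  show leg (pt (yc col α i α)) = _
  rw [leg_pt]
  simp [yc]

theorem gg_ne (α β : W2) (h : α ≠ β) : ∃ i, gg col α (yY col β i) ≠ (i.1 : ℝ) := by
  by_contra hcon
  push Not at hcon
  have h1 : ∀ i, (yc col β i α).1 = i := by
    intro i
    rw [← leg_eq_of_lt]
    exact hcon i
  rcases lt_or_gt_of_ne h with h2 | h2
  · have := h1 1
    simp [yc, h2] at this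
  · have h3 : ∀ i, yc col β i α = (col β α).1 i := by
      intro i
      simp [yc, not_lt.mpr h2.le, h]
    apply (col β α).2
    intro i
    rw [← h3 i]; exact h1 i

theorem gg_val_int (α : W2) (y : YY col) : ∃ n : ℕ, gg col α y = (n : ℝ) := by
  obtain ⟨_, ⟨β, i⟩, rfl⟩ := y
  exact ⟨(yc col β i α).1.1, leg_pt _⟩

/-- The large discrete set. -/
noncomputable def DD : Set (YY col → ℝ) := Set.range fun α : W2 => (gg col α : YY col → ℝ)

theorem gg_injective : Function.Injective fun α : W2 => (gg col α : YY col → ℝ) := by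
  intro α β h
  by_contra hne
  obtain ⟨i, hi⟩ := gg_ne col α β hne
  apply hi
  have h1 : gg col α (yY col β i) = gg col β (yY col β i) := congrFun h (yY col β i)
  rw [h1]
  exact gg_self col β i

theorem DD_discrete : DiscreteTopology (DD col) := by
  rw [discreteTopology_iff_isOpen_singleton]
  rintro ⟨_, α, rfl⟩
  rw [isOpen_induced_iff]
  refine ⟨{f | ∀ i : Fin 3, |f (yY col α i) - i.1| < 1}, ?_, ?_⟩
  · have : {f : YY col → ℝ | ∀ i : Fin 3, |f (yY col α i) - i.1| < 1} =
        ⋂ i : Fin 3, {f : YY col → ℝ | |f (yY col α i) - (i.1 : ℝ)| < 1} := by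
      ext f; simp
    rw [this]
    apply isOpen_iInter_of_finite
    intro i
    exact isOpen_lt (((continuous_apply _).sub continuous_const).abs) continuous_const
  · ext ⟨f, β, rfl⟩
    rw [Set.mem_preimage, Set.mem_ofPred_eq, Set.mem_singleton_iff, Subtype.ext_iff]
    constructor
    · intro h
      by_contra hne
      have hne' : β ≠ α := fun h' => hne (by rw [h'])
      obtain ⟨i, hi⟩ := gg_ne col β α hne'
      obtain ⟨n, hn⟩ := gg_val_int col β (yY col α i)
      have h1 : |gg col β (yY col α i) - (i.1 : ℝ)| < 1 := h i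
      rw [hn] at h1 hi
      apply hi
      rw [abs_lt] at h1
      have h2 : (n : ℝ) < i.1 + 1 := by linarith [h1.2]
      have h3 : (i.1 : ℝ) < n + 1 := by linarith [h1.1]
      have h2' : n < i.1 + 1 := by exact_mod_cast h2
      have h3' : i.1 < n + 1 := by exact_mod_cast h3
      have : n = i.1 := by omega
      rw [this]
    · intro h i
      have h1 : gg col β (yY col α i) = gg col α (yY col α i) := congrFun h (yY col α i)
      show |gg col β (yY col α i) - (i.1 : ℝ)| < 1
      rw [h1, gg_self]
      simp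

theorem DD_card : #W2 = #(DD col) := (Cardinal.mk_range_eq _ (gg_injective col)).symm

end Pool.Agent.Lib.MP_08e893_gt
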