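import Pool.Agent.Lib.MP_08e893_gt.Space

/-!
No discrete set of restrictions of size `ℵ₂`.
-/

set_option autoImplicit false

namespace Pool.Agent.Lib.MP_08e893_gt

open Set Cardinal

theorem discrete_nhds {Y : Type} (D : Set (Y → ℝ)) (hD : DiscreteTopology D) (d : D) :
    ∃ (F : Finset Y) (ε : ℝ), 0 < ε ∧ ∀ d' : D, (∀ y ∈ F, |d'.1 y - d.1 y| < ε) → d' = d := by
  classical
  have h1 : ({d} : Set D) ∈ nhds d := by
    rw [nhds_discrete]; exact rfl
  rw [nhds_subtype_eq_comap, Filter.mem_comap] at h1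
  obtain ⟨U, hU, hUd⟩ := h1
  rw [nhds_pi, Filter.mem_pi] at hU
  obtain ⟨I, hI, t, ht, htU⟩ := hU
  have h2 : ∀ y, ∃ ε : ℝ, 0 < ε ∧ Metric.ball (d.1 y) ε ⊆ t y := fun y => by
    obtain ⟨ε, hε, h⟩ := Metric.mem_nhds_iff.mp (ht y)
    exact ⟨ε, hε, h⟩
  choose e he1 he2 using h2
  obtain ⟨ε, hε, hε'⟩ : ∃ ε : ℝ, 0 < ε ∧ ∀ y ∈ hI.toFinset, ε ≤ e y := by
    induction hI.toFinset using Finset.induction_on with
    | empty => exact ⟨1, one_pos, by simp⟩
    | insert y s _ ih =>
      obtain ⟨ε, hε, h⟩ := ih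
      refine ⟨min ε (e y), lt_min hε (he1 y), ?_⟩
      intro z hz
      rcases Finset.mem_insert.mp hz with rfl | hz
      · exact min_le_right _ _
      · exact (min_le_left _ _).trans (h z hz)
  refine ⟨hI.toFinset, ε, hε, ?_⟩
  intro d' hd'
  have h3 : d'.1 ∈ U := by
    apply htU
    intro y hy
    apply he2
    rw [Metric.mem_ball, Real.dist_eq]
    have hy' : y ∈ hI.toFinset := hI.mem_toFinset.mpr hy
    exact (hd' y hy').trans_le (hε' y hy')
  exact hUd h3

/-- A continuous function on `K^{ω₂}` depends up to `ε` on finitely many coordinates. -/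
theorem finite_dep (f : C(XX, ℝ)) (ε : ℝ) (hε : 0 < ε) :
    ∃ A : Finset W2, ∀ x x' : XX, (∀ α ∈ A, x α = x' α) → |f x - f x'| < ε := by
  classical
  have huc := CompactSpace.uniformContinuous_of_continuous f.continuous
  have h1 := huc (Metric.dist_mem_uniformity hε)
  rw [Filter.mem_map, Pi.uniformity, Filter.mem_iInf] at h1
  obtain ⟨I, hI, V, hV, hVU⟩ := h1
  refine ⟨hI.toFinset, ?_⟩
  intro x x' hxx
  have h2 : (x, x') ∈ ⋂ i, V i := by
    rw [Set.mem_iInter]
    rintro ⟨i, hi⟩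
    have h3 := hV ⟨i, hi⟩
    rw [Filter.mem_comap] at h3
    obtain ⟨t, ht, htV⟩ := h3
    apply htV
    show (x i, x' i) ∈ t
    rw [hxx i (hI.mem_toFinset.mpr hi)]
    exact refl_mem_uniformity ht
  rw [← hVU] at h2
  exact h2

variable (col : W2 → W2 → TT)

theorem upper (hcol : ∀ (ι : Type) (_ : #W1 < #ι) (m : ℕ) (a : ι → Fin m → W2)
      (_ : ∀ i, StrictMono (a i)),
      ∃ r, r ≤ m ∧ ∀ H : Fin m → Fin m → TT, ∃ i j, i ≠ j ∧
        (∀ k : Fin m, k.1 < r → a i k = a j k) ∧
        (∀ l k : Fin m, r ≤ l.1 → r ≤ k.1 → a i l < a j k ∧ col (a i l) (a j k) = H l k))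
    (D : Set (YY col → ℝ))
    (hD1 : D ⊆ Set.range (fun f : C(XX, ℝ) => fun y : YY col => f y.1))
    (hD : DiscreteTopology D) : #D ≤ #W1 := by
  classical
  by_contra hcon
  rw [not_le] at hcon
  -- choose functions and neighbourhoods
  choose f hf using fun d : D => hD1 d.2
  choose F e he1 he2 using discrete_nhds D hD
  have hn : ∀ d : D, ∃ n : ℕ, 1 / ((n : ℝ) + 1) < e d := fun d => exists_nat_one_div_lt (he1 d)
  choose n hn using hn
  obtain ⟨n0, hn0⟩ := pigeon aleph0_le_W1 n (Cardinal.mk_le_aleph0.trans aleph0_le_W1) hcon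
  let I1 : Type := n ⁻¹' {n0}
  let ε : ℝ := 1 / ((n0 : ℝ) + 1)
  have hε : 0 < ε := by positivity
  have hI1 : ∀ d : I1, ∀ d' : D, (∀ y ∈ F d.1, |d'.1 y - d.1.1 y| < ε) → d' = d.1 := by
    intro d d' h
    apply he2 d.1 d'
    intro y hy
    have h1 : n d.1 = n0 := d.2
    have h2 := hn d.1
    rw [h1] at h2
    exact (h y hy).trans h2
  -- supports
  choose A hA using fun d : I1 => finite_dep (f d.1) (ε / 8) (by positivity)
  have hB : ∀ y : YY col, ∃ p : W2 × Fin 3, yy col p.1 p.2 = y.1 := fun y => y.2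
  choose p hp using hB
  let S : I1 → Finset W2 := fun d => A d ∪ (F d.1).image (fun y => (p y).1)
  obtain ⟨m, hm⟩ := pigeon aleph0_le_W1 (fun d : I1 => (S d).card)
    (Cardinal.mk_le_aleph0.trans aleph0_le_W1) hn0
  let I2 : Type := (fun d : I1 => (S d).card) ⁻¹' {m}
  have hI2 : ∀ d : I2, (S d.1).card = m := fun d => d.2
  let a : I2 → Fin m → W2 := fun d => (S d.1).orderEmbOfFin (hI2 d)
  have ha : ∀ d, StrictMono (a d) := fun d => ((S d.1).orderEmbOfFin (hI2 d)).strictMono
  have harange : ∀ d : I2, ∀ α ∈ S d.1, ∃ k, a d k = α := by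
    intro d α hα
    have : α ∈ Set.range ((S d.1).orderEmbOfFin (hI2 d)) := by
      rw [Finset.range_orderEmbOfFin]; exact hα
    exact this
  -- finite-dimensional approximations
  let ext : I2 → (Fin m → K) → XX := fun d z α => if h : ∃ k, a d k = α then z h.choose else pt (q1 0)
  have hext : ∀ d z k, ext d z (a d k) = z k := by
    intro d z k
    have h : ∃ k', a d k' = a d k := ⟨k, rfl⟩
    simp only [ext]
    rw [dif_pos h]
    congr 1
    exact (ha d).injective h.choose_spec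
  have hextc : ∀ d, Continuous (ext d) := by
    intro d
    apply continuous_pi
    intro α
    simp only [ext]
    by_cases h : ∃ k, a d k = α
    · simp only [h, dif_pos]
      exact continuous_apply _
    · simp only [h, dif_neg, not_false_eq_true]
      exact continuous_const
  let Pd : I2 → C(Fin m → K, ℝ) := fun d => ⟨fun z => f d.1.1 (ext d z), (f d.1.1).continuous.comp (hextc d)⟩
  have hPd : ∀ d : I2, ∀ x : XX, |f d.1.1 x - Pd d (fun k => x (a d k))| < ε / 8 := by
    intro d x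
    apply hA d.1
    intro α hα
    obtain ⟨k, rfl⟩ := harange d α (Finset.mem_union_left _ hα)
    exact (hext d (fun k => x (a d k)) k).symm
  have hsep : ∃ g : ℕ → C(Fin m → K, ℝ), ∀ P, ∃ n, dist P (g n) < ε / 8 := by
    refine ⟨TopologicalSpace.denseSeq _, ?_⟩
    intro P
    exact (TopologicalSpace.denseRange_denseSeq C(Fin m → K, ℝ)).exists_dist_lt P
      (show 0 < ε / 8 by positivity)
  obtain ⟨g, hg⟩ := hsep
  choose N hN using fun d : I2 => hg (Pd d)
  obtain ⟨N0, hN0⟩ := pigeon aleph0_le_W1 N (Cardinal.mk_le_aleph0.trans aleph0_le_W1) hm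
  let I3 : Type := N ⁻¹' {N0}
  let P : C(Fin m → K, ℝ) := g N0
  have happ : ∀ d : I3, ∀ x : XX, |f d.1.1.1 x - P (fun k => x (a d.1 k))| < ε / 4 := by
    intro d x
    have h1 := hPd d.1 x
    have h2 : N d.1 = N0 := d.2
    have h3 := hN d.1
    rw [h2] at h3
    have h4 := (ContinuousMap.dist_apply_le_dist (f := Pd d.1) (g := g N0) (fun k => x (a d.1 k))).trans_lt h3
    rw [Real.dist_eq] at h4
    have h5 := abs_sub_le (f d.1.1.1 x) (Pd d.1 (fun k => x (a d.1 k))) (P (fun k => x (a d.1 k)))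
    have h6 : |Pd d.1 (fun k => x (a d.1 k)) - P (fun k => x (a d.1 k))| < ε / 8 := h4
    linarith
  -- the matrix of values
  let Mf : I3 → (Fin m → Fin 3 → Fin m → QT) := fun d l i k => yc col (a d.1 l) i (a d.1 k)
  obtain ⟨M, hM⟩ := pigeon aleph0_le_W1 Mf (Cardinal.mk_le_aleph0.trans aleph0_le_W1) hN0
  let I4 : Type := Mf ⁻¹' {M}
  have hM' : ∀ (d : I4) l i k, yc col (a d.1.1 l) i (a d.1.1 k) = M l i k := by
    intro d l i k
    have h1 : Mf d.1 = M := d.2
    exact congrFun (congrFun (congrFun h1 l) i) k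
  obtain ⟨r, hrm, hr⟩ := hcol I4 hM m (fun d => a d.1.1) (fun d => ha d.1.1)
  have hne : Nonempty I4 := by
    rw [← Cardinal.mk_ne_zero_iff]
    exact (Cardinal.aleph0_pos.trans_le (aleph0_le_W1.trans hM.le)).ne'
  obtain ⟨d0⟩ := hne
  have hTT := TT_nonempty
  have hH : ∀ l : Fin m, ∃ G : Fin m → TT, r ≤ l.1 → ∀ i,
      |P (fun k => if k.1 < r then pt (M l i k) else pt ((G k).1 i)) -
        P (fun k => pt (M l i k))| < ε / 4 := by
    intro l
    by_cases hl : r ≤ l.1
    · obtain ⟨G, hG⟩ := ivt_claim P r (fun i k => M l i k) (by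
        intro k hk i j
        have hkl : a d0.1.1 k < a d0.1.1 l := ha d0.1.1 (Fin.lt_def.mpr (lt_of_lt_of_le hk hl))
        rw [← hM' d0 l i k, ← hM' d0 l j k]
        simp [yc, hkl]) (ε / 4) (by positivity)
      exact ⟨G, fun _ => hG⟩
    · exact ⟨fun _ => Classical.arbitrary TT, fun h => absurd h hl⟩
  choose H hH using hH
  obtain ⟨d, d', hdd, hroot, htail⟩ := hr H
  apply hdd
  have hkey : d'.1.1.1.1 = d.1.1.1.1 := by
    apply hI1 d.1.1.1 d'.1.1.1.1
    intro y hy
    obtain ⟨l, hl⟩ := harange d.1.1 (p y).1 (Finset.mem_union_right _ (Finset.mem_image_of_mem _ hy))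
    set i := (p y).2 with hi
    have hyy : y.1 = yy col (a d.1.1 l) i := by rw [hl, hi]; exact (hp y).symm
    have e1 : d.1.1.1.1.1 y = f d.1.1.1.1 y.1 := (congrFun (hf d.1.1.1.1) y).symm
    have e2 : d'.1.1.1.1.1 y = f d'.1.1.1.1 y.1 := (congrFun (hf d'.1.1.1.1) y).symm
    rw [e1, e2]
    have h1 := happ d.1 y.1
    have h2 := happ d'.1 y.1
    have h3 : (fun k => y.1 (a d.1.1 k)) = fun k => pt (M l i k) := by
      funext k
      rw [hyy]
      show pt (yc col (a d.1.1 l) i (a d.1.1 k)) = _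
      rw [hM' d]
    rw [h3] at h1
    by_cases hlr : l.1 < r
    · have h4 : (fun k => y.1 (a d'.1.1 k)) = fun k => pt (M l i k) := by
        funext k
        rw [hyy, hroot l hlr]
        show pt (yc col (a d'.1.1 l) i (a d'.1.1 k)) = _
        rw [hM' d']
      rw [h4] at h2
      have h5 := abs_sub_le (f d'.1.1.1.1 y.1) (P fun k => pt (M l i k)) (f d.1.1.1.1 y.1)
      rw [abs_sub_comm (P fun k => pt (M l i k)) (f d.1.1.1.1 y.1)] at h5
      linarith
    · push Not at hlr
      have h4 : (fun k => y.1 (a d'.1.1 k)) =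
          fun k => if k.1 < r then pt (M l i k) else pt ((H l k).1 i) := by
        funext k
        rw [hyy]
        show pt (yc col (a d.1.1 l) i (a d'.1.1 k)) = _
        split_ifs with hk
        · rw [← hroot k hk, hM' d]
        · push Not at hk
          obtain ⟨h5, h6⟩ := htail l k hlr hk
          have h7 : yc col (a d.1.1 l) i (a d'.1.1 k) = (col (a d.1.1 l) (a d'.1.1 k)).1 i := by
            simp [yc, not_lt.mpr h5.le, h5.ne']
          rw [h7, h6]
      rw [h4] at h2
      have h5 := hH l hlr i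
      have h6 := abs_sub_le (f d'.1.1.1.1 y.1)
        (P fun k => if k.1 < r then pt (M l i k) else pt ((H l k).1 i)) (P fun k => pt (M l i k))
      have h7 := abs_sub_le (f d'.1.1.1.1 y.1) (P fun k => pt (M l i k)) (f d.1.1.1.1 y.1)
      rw [abs_sub_comm (P fun k => pt (M l i k)) (f d.1.1.1.1 y.1)] at h7
      linarith
  exact (Subtype.ext (Subtype.ext (Subtype.ext (Subtype.ext hkey)))).symm

end Pool.Agent.Lib.MP_08e893_gt
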