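import Mathlib

/-!
Walks on a well-ordered type `B` of type `ω₂` along enumerations `A → Iio β`, where `A` has type `ω₁`.
-/

set_option autoImplicit false
set_option linter.unusedSectionVars false

namespace Pool.Agent.Lib.MP_08e893_gt

open Set

/-- Hypotheses saying that `A` behaves like `ω₁` and `B` like `ω₂`. -/
structure Setup (A B : Type) [LinearOrder A] [LinearOrder B] : Prop where
  neA : Nonempty A
  neB : Nonempty B
  surjN : ∃ g : A → ℕ, Function.Surjective g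
  cntA : ∀ a : A, (Set.Iio a).Countable
  cofA : ∀ s : Set A, s.Countable → ∃ a, ∀ x ∈ s, x < a
  sizeB : ∀ b : B, ∃ f : A → B, ∀ x < b, ∃ a, f a = x
  cofB : ∀ f : A → B, ∃ b, ∀ a, f a < b

section basics

variable {A B : Type} [LinearOrder A] [WellFoundedLT A] [LinearOrder B] [WellFoundedLT B]

/-- `δ` has uncountable cofinality (and is not minimal). -/
def Good (δ : B) : Prop := ∀ s : Set B, s.Countable → (∀ x ∈ s, x < δ) → ∃ γ < δ, ∀ x ∈ s, x < γ

/-- A stationarity notion: closure points of every function, arbitrarily high. -/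
def Stat (P : Set B) : Prop := ∀ (b : B → B) (γ : B), ∃ δ ∈ P, γ < δ ∧ ∀ x < δ, b x < δ

theorem Setup.cofB_countable (S : Setup A B) (s : Set B) (hs : s.Countable) :
    ∃ b, ∀ x ∈ s, x < b := by
  classical
  obtain ⟨b0⟩ := S.neB
  rcases s.eq_empty_or_nonempty with rfl | hne
  · exact ⟨b0, by simp⟩
  · obtain ⟨f, hf⟩ := hs.exists_eq_range hne
    obtain ⟨g, hg⟩ := S.surjN
    obtain ⟨b, hb⟩ := S.cofB (fun a => f (g a))
    refine ⟨b, ?_⟩
    intro x hx
    rw [hf] at hx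
    obtain ⟨n, rfl⟩ := hx
    obtain ⟨a, rfl⟩ := hg n
    exact hb a

theorem Setup.bound_image (S : Setup A B) (b : B → B) (x : B) :
    ∃ c, x < c ∧ ∀ y ≤ x, b y < c := by
  classical
  obtain ⟨f, hf⟩ := S.sizeB x
  obtain ⟨c, hc⟩ := S.cofB (fun a => max (b (f a)) (max x (b x)))
  obtain ⟨a0⟩ := S.neA
  have h0 := hc a0
  refine ⟨c, ?_, ?_⟩
  · exact lt_of_le_of_lt (le_trans (le_max_left _ _) (le_max_right _ _)) h0
  · intro y hy
    rcases lt_or_eq_of_le hy with hlt | rfl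
    · obtain ⟨a, rfl⟩ := hf y hlt
      exact lt_of_le_of_lt (le_max_left _ _) (hc a)
    · exact lt_of_le_of_lt (le_trans (le_max_right _ _) (le_max_right _ _)) h0

theorem Setup.stat_good (S : Setup A B) : Stat {δ : B | Good δ} := by
  classical
  intro b γ
  choose c hc1 hc2 using S.bound_image b
  have key : ∀ (ζ : A) (f : ∀ ζ' : A, ζ' < ζ → B),
      ∃ y : B, γ < y ∧ ∀ (ζ' : A) (h : ζ' < ζ), c (f ζ' h) < y := by
    intro ζ f
    have hcount : (insert γ (Set.range fun p : {ζ' : A // ζ' < ζ} => c (f p.1 p.2))).Countable := by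
      apply Set.Countable.insert
      have : Countable {ζ' : A // ζ' < ζ} := (S.cntA ζ).to_subtype
      exact Set.countable_range _
    obtain ⟨y, hy⟩ := S.cofB_countable _ hcount
    refine ⟨y, hy γ (Set.mem_insert _ _), ?_⟩
    intro ζ' h
    exact hy _ (Set.mem_insert_of_mem _ ⟨⟨ζ', h⟩, rfl⟩)
  let F : ∀ ζ : A, (∀ ζ' : A, ζ' < ζ → B) → B := fun ζ f => Classical.choose (key ζ f)
  let X : A → B := (wellFounded_lt (α := A)).fix F
  have hX : ∀ ζ, X ζ = F ζ (fun ζ' _ => X ζ') := fun ζ => WellFounded.fix_eq _ F ζ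
  have hX1 : ∀ ζ, γ < X ζ := by
    intro ζ
    rw [hX]
    exact (Classical.choose_spec (key ζ (fun ζ' _ => X ζ'))).1
  have hX2 : ∀ ζ ζ', ζ' < ζ → c (X ζ') < X ζ := by
    intro ζ ζ' h
    rw [hX ζ]
    exact (Classical.choose_spec (key ζ (fun ζ' _ => X ζ'))).2 ζ' h
  obtain ⟨δ1, hδ1⟩ := S.cofB X
  let T : Set B := {δ | ∀ ζ, X ζ < δ}
  have hT : T.Nonempty := ⟨δ1, hδ1⟩
  let δ := (wellFounded_lt (α := B)).min T hT
  have hδ : ∀ ζ, X ζ < δ := (wellFounded_lt (α := B)).min_mem T hT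
  have hmin : ∀ x < δ, ∃ ζ, x ≤ X ζ := by
    intro x hx
    by_contra hcon
    push Not at hcon
    exact (wellFounded_lt (α := B)).not_lt_min T (x := x) hcon hx
  obtain ⟨a0⟩ := S.neA
  have neA : Nonempty A := ⟨a0⟩
  refine ⟨δ, ?_, lt_trans (hX1 a0) (hδ a0), ?_⟩
  · intro s hs hsδ
    choose! Z hZ using fun x (hx : x ∈ s) => hmin x (hsδ x hx)
    obtain ⟨ζ, hζ⟩ := S.cofA (Z '' s) (hs.image Z)
    refine ⟨X ζ, hδ ζ, ?_⟩
    intro x hx
    calc x ≤ X (Z x) := hZ x hx
      _ < c (X (Z x)) := hc1 _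
      _ < X ζ := hX2 _ _ (hζ _ ⟨x, hx, rfl⟩)
  · intro x hx
    obtain ⟨ζ, hζ⟩ := hmin x hx
    obtain ⟨ζ', hζ'⟩ := S.cofA {ζ} (Set.countable_singleton ζ)
    calc b x < c (X ζ) := hc2 _ _ hζ
      _ < X ζ' := hX2 _ _ (hζ' ζ rfl)
      _ < δ := hδ ζ'

/-- A weak form of Fodor's lemma. -/
theorem Stat.fodor [Nonempty B] {P : Set B} (hP : Stat P) (g : B → B) (hg : ∀ δ ∈ P, g δ < δ) :
    ∃ γ, ∀ x, ∃ δ ∈ P, x < δ ∧ g δ ≤ γ := by
  classical
  by_contra hcon
  push Not at hcon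
  choose x hx using hcon
  obtain ⟨δ, hδP, hδ1, hδ2⟩ := hP x (Classical.arbitrary B)
  have h1 := hδ2 (g δ) (hg δ hδP)
  exact lt_irrefl _ (hx (g δ) δ hδP h1)

end basics

section walks

variable {A B : Type} [LinearOrder A] [WellFoundedLT A] [LinearOrder B] [WellFoundedLT B]

/-- A choice of enumerations of the initial segments of `B`. -/
structure Enum (L : B → A → B) : Prop where
  surj : ∀ β α : B, α < β → ∃ ζ, L β ζ = α
  lt : ∀ (β α : B) (ζ : A), α < β → L β ζ < β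

theorem Setup.exists_enum (S : Setup A B) : ∃ L : B → A → B, Enum L := by
  classical
  choose f hf using S.sizeB
  refine ⟨fun β ζ => if f β ζ < β then f β ζ else if h : ∃ α, α < β then h.choose else β, ?_, ?_⟩
  · intro β α h
    obtain ⟨ζ, hζ⟩ := hf β α h
    refine ⟨ζ, ?_⟩
    have : f β ζ < β := by rw [hζ]; exact h
    show (if f β ζ < β then f β ζ else if h : ∃ α, α < β then h.choose else β) = α
    rw [if_pos this, hζ]
  · intro β α ζ h
    by_cases h1 : f β ζ < β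
    · simp [h1]
    · have h2 : ∃ α, α < β := ⟨α, h⟩
      simp only [h1, if_false, h2, dif_pos]
      exact h2.choose_spec

variable (L : B → A → B)

open Classical in
/-- The least index whose value is at least `α`. -/
noncomputable def code [Nonempty A] (β α : B) : A :=
  if h : {ζ : A | α ≤ L β ζ}.Nonempty then (wellFounded_lt (α := A)).min _ h
  else Classical.arbitrary A

/-- One step of the walk from `β` towards `α`. -/
noncomputable def nxt [Nonempty A] (β α : B) : B := L β (code L β α)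

variable {L}

theorem Enum.nonempty (hL : Enum L) {β α : B} (h : α < β) : {ζ : A | α ≤ L β ζ}.Nonempty := by
  obtain ⟨ζ, hζ⟩ := hL.surj β α h
  exact ⟨ζ, hζ.ge⟩

theorem Enum.le_nxt [Nonempty A] (hL : Enum L) {β α : B} (h : α < β) : α ≤ nxt L β α := by
  classical
  have h1 := hL.nonempty h
  unfold nxt code
  rw [dif_pos h1]
  exact (wellFounded_lt (α := A)).min_mem _ h1

theorem Enum.nxt_lt [Nonempty A] (hL : Enum L) {β α : B} (h : α < β) : nxt L β α < β :=
  hL.lt β α _ h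

theorem Enum.lt_of_lt_code [Nonempty A] (hL : Enum L) {β α : B} (h : α < β) {ζ : A}
    (hζ : ζ < code L β α) : L β ζ < α := by
  classical
  by_contra hcon
  push Not at hcon
  have h1 := hL.nonempty h
  unfold code at hζ
  rw [dif_pos h1] at hζ
  exact (wellFounded_lt (α := A)).not_lt_min _ (x := ζ) hcon hζ

theorem code_eq [Nonempty A] {β α : B} {ζ : A} (h1 : α ≤ L β ζ) (h2 : ∀ ζ' < ζ, L β ζ' < α) :
    code L β α = ζ := by
  classical
  have hne : {ζ : A | α ≤ L β ζ}.Nonempty := ⟨ζ, h1⟩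
  unfold code
  rw [dif_pos hne]
  apply le_antisymm
  · exact le_of_not_gt ((wellFounded_lt (α := A)).not_lt_min _ (x := ζ) h1)
  · by_contra hcon
    push Not at hcon
    have h3 := h2 _ hcon
    have h4 : α ≤ L β ((wellFounded_lt (α := A)).min _ hne) :=
      (wellFounded_lt (α := A)).min_mem _ hne
    exact absurd h3 (not_lt.mpr h4)

variable (L)

open Classical in
/-- The walk from `β` down to `α` with its codes. -/
noncomputable def tr [Nonempty A] (hL : Enum L) (α β : B) : List (B × A) :=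
  (wellFounded_lt (α := B)).fix (C := fun _ => List (B × A))
    (fun β rec => if h : α < β then (β, code L β α) :: rec (nxt L β α) (hL.nxt_lt h) else []) β

variable {L}

theorem tr_of_lt [Nonempty A] (hL : Enum L) {α β : B} (h : α < β) :
    tr L hL α β = (β, code L β α) :: tr L hL α (nxt L β α) := by
  unfold tr
  rw [WellFounded.fix_eq, dif_pos h]

theorem tr_self [Nonempty A] (hL : Enum L) (α : B) : tr L hL α α = [] := by
  unfold tr
  rw [WellFounded.fix_eq, dif_neg (lt_irrefl α)]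

theorem tr_length_pos [Nonempty A] (hL : Enum L) {α β : B} (h : α < β) :
    0 < (tr L hL α β).length := by
  rw [tr_of_lt hL h]; simp

/-- Lemma A: walks to points just below a good `δ` pass through `δ`. -/
theorem tr_append [Nonempty A] (hA : ∀ a : A, (Set.Iio a).Countable) (hL : Enum L) {δ : B}
    (hδ : Good δ) : ∀ β, δ < β → ∃ γ < δ, ∀ α, γ < α → α ≤ δ →
      tr L hL α β = tr L hL δ β ++ tr L hL α δ := by
  intro β
  induction β using WellFoundedLT.induction with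
  | ind β ih =>
    intro hβ
    have h1 : (L β '' Set.Iio (code L β δ)).Countable := (hA _).image _
    obtain ⟨γ1, hγ1, hγ1'⟩ := hδ _ h1 (by
      rintro x ⟨ζ, hζ, rfl⟩
      exact hL.lt_of_lt_code hβ hζ)
    have hcode : ∀ α, γ1 < α → α ≤ δ → code L β α = code L β δ := by
      intro α h2 h3
      apply code_eq
      · exact le_trans h3 (hL.le_nxt hβ)
      · intro ζ' hζ'
        exact lt_trans (hγ1' _ ⟨ζ', hζ', rfl⟩) h2
    have hnxt : ∀ α, γ1 < α → α ≤ δ → nxt L β α = nxt L β δ := by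
      intro α h2 h3
      unfold nxt
      rw [hcode α h2 h3]
    rcases eq_or_lt_of_le (hL.le_nxt hβ) with heq | hlt
    · refine ⟨γ1, hγ1, ?_⟩
      intro α h2 h3
      have h4 : α < β := lt_of_le_of_lt h3 hβ
      rw [tr_of_lt hL h4, tr_of_lt hL hβ, hcode α h2 h3, hnxt α h2 h3, ← heq, tr_self]
      simp
    · obtain ⟨γ2, hγ2, hγ2'⟩ := ih _ (hL.nxt_lt hβ) hlt
      refine ⟨max γ1 γ2, max_lt hγ1 hγ2, ?_⟩
      intro α h2 h3
      have h4 : α < β := lt_of_le_of_lt h3 hβ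
      have h5 := lt_of_le_of_lt (le_max_left γ1 γ2) h2
      have h6 := lt_of_le_of_lt (le_max_right γ1 γ2) h2
      rw [tr_of_lt hL h4, tr_of_lt hL hβ, hcode α h5 h3, hnxt α h5 h3, hγ2' α h6 h3]
      simp

/-- Lemma B: long walks exist below good closure points. -/
theorem long_walks [Nonempty A] (S : Setup A B) (hL : Enum L) (𝒜 : Set (Finset B))
    (h𝒜 : ∀ γ, ∃ a ∈ 𝒜, ∀ x ∈ a, γ < x) (v : ℕ) :
    ∃ b : B → B, ∀ δ, Good δ → (∀ x < δ, b x < δ) → ∀ γ < δ, ∃ a ∈ 𝒜, ∀ x ∈ a,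
      γ < x ∧ x < δ ∧ v ≤ (tr L hL x δ).length := by
  classical
  induction v with
  | zero =>
    choose a ha1 ha2 using h𝒜
    have : ∀ γ, ∃ y, ∀ x ∈ a γ, x < y := fun γ =>
      S.cofB_countable (a γ : Set B) (a γ).countable_toSet
    choose b hb using this
    refine ⟨b, ?_⟩
    intro δ _ hcl γ hγ
    refine ⟨a γ, ha1 γ, ?_⟩
    intro x hx
    exact ⟨ha2 γ x hx, lt_trans (hb γ x hx) (hcl γ hγ), Nat.zero_le _⟩
  | succ v ih =>
    obtain ⟨b, hb⟩ := ih
    have hst := S.stat_good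
    have : ∀ γ, ∃ δ', Good δ' ∧ γ < δ' ∧ ∀ x < δ', b x < δ' := by
      intro γ
      obtain ⟨δ', h1, h2, h3⟩ := hst b γ
      exact ⟨δ', h1, h2, h3⟩
    choose d hd1 hd2 hd3 using this
    refine ⟨d, ?_⟩
    intro δ hδ hcl γ hγ
    have h1 : d γ < δ := hcl γ hγ
    obtain ⟨γ', hγ', htr⟩ := tr_append S.cntA hL (hd1 γ) δ h1
    obtain ⟨a, ha, ha'⟩ := hb (d γ) (hd1 γ) (hd3 γ) (max γ γ') (max_lt (hd2 γ) hγ')
    refine ⟨a, ha, ?_⟩
    intro x hx
    obtain ⟨h2, h3, h4⟩ := ha' x hx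
    have h5 := lt_of_le_of_lt (le_max_left γ γ') h2
    have h6 := lt_of_le_of_lt (le_max_right γ γ') h2
    refine ⟨h5, lt_trans h3 h1, ?_⟩
    rw [htr x h6 h3.le, List.length_append]
    have := tr_length_pos hL h1
    omega

/-- Lemma B, all lengths at once. -/
theorem long_walks' [Nonempty A] (S : Setup A B) (hL : Enum L) (𝒜 : Set (Finset B))
    (h𝒜 : ∀ γ, ∃ a ∈ 𝒜, ∀ x ∈ a, γ < x) :
    ∃ b : B → B, ∀ δ, Good δ → (∀ x < δ, b x < δ) → ∀ (v : ℕ), ∀ γ < δ, ∃ a ∈ 𝒜, ∀ x ∈ a,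
      γ < x ∧ x < δ ∧ v ≤ (tr L hL x δ).length := by
  classical
  choose b hb using long_walks S hL 𝒜 h𝒜
  have : ∀ x, ∃ y, ∀ v, b v x < y := by
    intro x
    obtain ⟨y, hy⟩ := S.cofB_countable (Set.range fun v => b v x) (Set.countable_range _)
    exact ⟨y, fun v => hy _ ⟨v, rfl⟩⟩
  choose c hc using this
  refine ⟨c, ?_⟩
  intro δ hδ hcl v
  exact hb v δ hδ (fun x hx => lt_trans (hc x v) (hcl x hx))

end walks

end Pool.Agent.Lib.MP_08e893_gt
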